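import Mathlib
import Pool.Agent.Zk12.HT.Stm2
import Pool.Agent.Zk12.GT.Stm
import Pool.Agent.TH954.SBir

/-!
# Birational sections of the curves `D(t_0) y² = ∏ (x - e_i)`, `D` irreducible of odd degree, over
`k₁(t_0)`, `k₁` any finitely generated field, `e_i ∈ k₁` arbitrary: statements of the parts (project HD)
-/

set_option autoImplicit false
set_option linter.all false

open Polynomial IsDedekindDomain NumberField

namespace Pool.Agent.Zk12.HD

open Pool.Agent.TH954 Pool.Agent.Zk12.FG Pool.Agent.Zk12.HT Pool.Agent.Zk12.GT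

/-- **part STARF** (use two embeddings of a finitely generated field in `ℚ_p`, `ℚ_q`, `p ≠ q`, with `a - b`,
`a - l`, `b - l` units, and `β ∈ ℤ` with `p ∥ β - a`, `q ∥ β - l`) -/
def S_STARF : Prop := ∀ (k₁ : Type) [Field k₁] [CharZero k₁], (⊤ : IntermediateField ℚ k₁).FG → GT.Star k₁

/-- **part SYMW** (`S_SYM` for elements of `Ω` fixed by the section) -/
def S_SYMW : Prop := ∀ (k F Ω B : Type) [Field k] [CharZero k] [Field F] [Field Ω] [Field B]
  [Algebra k F] [Algebra F Ω] [Algebra k Ω] [Algebra k B] [IsScalarTower k F Ω] [IsAlgClosure F Ω]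
  [IsAlgClosure k B] (s : GalSection k F Ω B) (x : Ω), (∀ g, s.s g x = x) →
  (∀ c : k, x ≠ algebraMap k Ω c) →
  ∃ c : k → k, (∀ β, c β ≠ 0) ∧
    (∀ β, ∃ b : Ω, (∀ g, s.s g b = b) ∧ x - algebraMap k Ω β = algebraMap k Ω (c β) * b ^ 2) ∧
    ∀ β γ, β ≠ γ → ∃ u v w : k, (u ≠ 0 ∨ v ≠ 0 ∨ w ≠ 0) ∧
      u ^ 2 = c β / (γ - β) * v ^ 2 + c γ / (β - γ) * w ^ 2

/-- **part QUAD**: all square roots of the elements of a finite extension of `ℚ_2` are in one finite
extension -/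
def S_QUAD : Prop := ∀ L₁ : IntermediateField ℚ_[2] (PadicAlgCl 2), FiniteDimensional ℚ_[2] L₁ →
  ∃ L : IntermediateField ℚ_[2] (PadicAlgCl 2), L₁ ≤ L ∧ FiniteDimensional ℚ_[2] L ∧
    ∀ z ∈ L₁, ∃ w ∈ L, w ^ 2 = z

/-- **part EMBD**: `D` of odd degree, `φ` an embedding of `k₁(t₀)` in a completion of a number field;
there is another embedding, the same on `k₁`, such that the values of `D(t₀)` differ by a uniformizer
times a square: `φ' t₀ = ϖ^(1 - 2 M) φ(lc(D) D(t₀))`, `M` large -/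
def S_EMBD : Prop := ∀ (k₁ k : Type) [Field k₁] [CharZero k₁] [Field k] [Algebra k₁ k] (t₀ : k),
  Transcendental k₁ t₀ → IntermediateField.adjoin k₁ {t₀} = ⊤ → ∀ D : k₁[X], Odd D.natDegree →
  ∀ (F : IntermediateField ℚ (AlgebraicClosure ℚ)) [NumberField F] (w : HeightOneSpectrum (𝓞 F))
    (φ : k →+* w.adicCompletion F),
  ∃ (ϖ : w.adicCompletion F) (φ' : k →+* w.adicCompletion F) (η : w.adicCompletion F), η ≠ 0 ∧
    (∀ a b : w.adicCompletion F, b ≠ 0 → a ^ 2 ≠ ϖ * b ^ 2) ∧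
    (∀ c : k₁, φ' (algebraMap k₁ k c) = φ (algebraMap k₁ k c)) ∧
    φ' (aeval t₀ D) = ϖ * φ (aeval t₀ D) * η ^ 2

end Pool.Agent.Zk12.HD
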