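import Mathlib
import Pool.Agent.Zk12.HD.ConD1

/-!
# Project HD: the classes are constant
-/

set_option autoImplicit false
set_option linter.all false

open Polynomial FF

namespace Pool.Agent.Zk12.HD

open Pool.Agent.TH954 Pool.Agent.Zk12.FG Pool.Agent.Y157.PS Pool.Agent.Zk12.HT

/-- the classes of `(x - β) / (x - β')` are constant, for `β`, `β'` near `e` -/
theorem conD (hQUAD : S_QUAD) (hELL : S_ELL) (hKOEL : S_KOEL) (hEVAL : S_EVAL) (hKUM : S_KUMM)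
    (hEMB : S_EMBF) (hPOWR : S_POWR) (hNORM : S_NORM) (hDISC : S_DISC)
    (k₁ k F Ω B : Type) [Field k₁] [CharZero k₁] [Field k] [Field F] [Field Ω] [Field B]
    [Algebra k₁ k] [Algebra k F] [Algebra F Ω] [Algebra k Ω] [Algebra k B]
    [Algebra k₁ B] [IsScalarTower k₁ k B]
    [IsScalarTower k F Ω] [IsAlgClosure F Ω] [IsAlgClosure k B] (t₀ : k)
    (hfg : (⊤ : IntermediateField ℚ k₁).FG) (htr : Transcendental k₁ t₀)
    (hgen : IntermediateField.adjoin k₁ {t₀} = ⊤) (x : F) (hx : Transcendental k x)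
    (s : GalSection k F Ω B) (Dp : k₁[X]) (e : k₁) (T : Finset B) (a b c rD : B)
    (X α β γ : ℕ → Ω) (hT : ∀ z ∈ T, IsAlgebraic k₁ z) (haT : a ∈ T) (hbT : b ∈ T) (hcT : c ∈ T)
    (hab : a ≠ b) (hbc : b ≠ c) (hac : a ≠ c) (hrD : rD ^ 2 = algebraMap k B (aeval t₀ Dp))
    (hX0 : X 0 = algebraMap F Ω (x - algebraMap k F (algebraMap k₁ k e))⁻¹)
    (hH : Halves (s.j a) (s.j b) (s.j c) X α β γ)
    (hfix : ∀ g : B ≃ₐ[k] B, (∀ z ∈ T, g z = z) → g rD = rD →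
      ∀ j, s.s g (X j) = X j ∧ s.s g (α j) = α j ∧ s.s g (β j) = β j ∧ s.s g (γ j) = γ j) :
    ∃ m₀ : ℕ, ∀ m m' : ℕ, m₀ ≤ m → m₀ ≤ m' → ∀ N : ℕ, 1 ≤ N → ∃ (h : k₁) (w : Ω), h ≠ 0 ∧
      (∀ g, s.s g w = w) ∧
      algebraMap F Ω ((x - algebraMap k F (algebraMap k₁ k (e + 2 ^ m))) /
        (x - algebraMap k F (algebraMap k₁ k (e + 2 ^ m')))) =
        algebraMap k Ω (algebraMap k₁ k h) * w ^ N := by
  haveI : CharZero k := charZero_of_injective_algebraMap (algebraMap k₁ k).injective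
  haveI : CharZero B := charZero_of_injective_algebraMap (algebraMap k B).injective
  haveI : IsAlgClosed B := IsAlgClosure.isAlgClosed k
  haveI : CharZero F := charZero_of_injective_algebraMap (algebraMap k F).injective
  obtain ⟨r, hr⟩ := IsAlgClosed.exists_pow_nat_eq (algebraMap k B t₀) (n := 2) two_pos
  obtain ⟨L₀, ι₀, η, hL₀, hη, hι₀, hι⟩ := hEMB k₁ k B t₀ hfg htr hgen
  have hmA : ∀ z ∈ T, z ∈ algebraicClosure k₁ B := fun z hz => mem_algebraicClosure_iff.2 (hT z hz)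
  set Rb : ℝ := max ‖ι₀ ⟨a, hmA a haT⟩‖ (max ‖ι₀ ⟨b, hmA b hbT⟩‖ ‖ι₀ ⟨c, hmA c hcT⟩‖) with hRb
  have hRb0 : 0 ≤ Rb := le_trans (norm_nonneg _) (le_max_left _ _)
  obtain ⟨m₀, hm₀⟩ := exists_pow_lt_of_lt_one (show (0 : ℝ) < (1 / 2) ^ 10 / (Rb + 1) by positivity)
    (y := (1 / 2 : ℝ)) (by norm_num)
  have hm₁ : ∀ m, m₀ ≤ m → (1 / 2 : ℝ) ^ m * Rb < (1 / 2) ^ 10 := by
    intro m hm
    have h1 : (1 / 2 : ℝ) ^ m < (1 / 2) ^ 10 / (Rb + 1) :=
      lt_of_le_of_lt (pow_le_pow_of_le_one (by norm_num) (by norm_num) hm) hm₀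
    rw [lt_div_iff₀ (by positivity)] at h1
    have h2 : (0 : ℝ) < (1 / 2) ^ m := by positivity
    nlinarith
  refine ⟨m₀, fun m m' hm hm' N hN => ?_⟩
  set E : k := algebraMap k₁ k e with hE
  have hx0 : ∀ z : k, x - algebraMap k F z ≠ 0 := by
    intro z h
    apply hx
    rw [sub_eq_zero.1 h]
    exact isAlgebraic_algebraMap z
  have hform : ∀ M : ℕ, x - algebraMap k F (algebraMap k₁ k (e + 2 ^ M)) =
      x - algebraMap k F E - algebraMap k F (2 ^ M) := by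
    intro M
    rw [map_add (algebraMap k₁ k), map_pow (algebraMap k₁ k), map_ofNat (algebraMap k₁ k),
      map_add, sub_sub]
  rw [hform, hform]
  have hG0 : algebraMap F Ω ((x - algebraMap k F E - algebraMap k F (2 ^ m)) /
      (x - algebraMap k F E - algebraMap k F (2 ^ m'))) ≠ 0 := by
    rw [Ne, _root_.map_eq_zero]
    rw [sub_sub, ← map_add, sub_sub, ← map_add]
    exact div_ne_zero (hx0 _) (hx0 _)
  obtain ⟨C₀, w₀, hC₀, hw₀0, hw₀, hG⟩ := (hKUM k F Ω B s N hN).1 _ hG0 (fun g => (s.s g).commutes _)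
  obtain ⟨P, Q, hP, hQ, hQt, hPt, hPQ⟩ := ratfun hgen C₀ hC₀
  obtain ⟨h, D, E', hh, hD, hE', hPE⟩ := hPOWR k₁ (algebraicClosure k₁ B) N hN P Q hP hQ
    (keyD hQUAD hELL hKOEL hEVAL hKUM hNORM hDISC s htr hgen x hx E T a b c r X α β γ hmA haT hbT
      hcT hab hbc hac hr hX0 hH Dp rD hrD hfix L₀ hL₀ ι₀ η hη hι₀ (fun ς j hj => hι r hr ς j hj) m m' (hm₁ m hm)
      (hm₁ m' hm') N hN C₀ hC₀ w₀ hw₀0 hw₀ hG P Q hP hQ hPQ)
  have hinj : Function.Injective (aeval t₀ : k₁[X] →ₐ[k₁] k) :=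
    transcendental_iff_injective.1 htr
  have hne : ∀ g : k₁[X], g ≠ 0 → aeval t₀ g ≠ 0 := fun g hg h0 =>
    hg (hinj (by rw [h0, map_zero]))
  have h1 : C₀ = algebraMap k₁ k h * (aeval t₀ D / aeval t₀ E') ^ N := by
    have h2 := congrArg (aeval t₀ : k₁[X] → k) hPE
    simp only [map_mul, map_pow, aeval_C] at h2
    have h3 := pow_ne_zero N (hne _ hE')
    rw [hPQ, div_pow]
    field_simp
    linear_combination h2
  refine ⟨h, algebraMap k Ω (aeval t₀ D / aeval t₀ E') * w₀, hh, fun g => ?_, ?_⟩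
  · rw [map_mul, hw₀, IsScalarTower.algebraMap_apply k F Ω, (s.s g).commutes]
  · rw [hG, mul_pow, h1, map_mul, map_pow]
    ring

end Pool.Agent.Zk12.HD
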