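import Mathlib

/-!
# A group of automorphisms with fixed field `R` has the same orbits as the Galois group
-/

set_option autoImplicit false
set_option linter.all false

open Polynomial

namespace Pool.Agent.Zk12.HD

/-- if the elements fixed by the subgroup `H` are in `R`, then every `γ ∈ Gal(M/R)` acts on `z` as an
element of `H` -/
theorem dense {R M : Type} [Field R] [Field M] [Algebra R M] [Algebra.IsAlgebraic R M]
    (H : Subgroup (M ≃ₐ[R] M))
    (hH : ∀ y : M, (∀ h ∈ H, h y = y) → ∃ c : R, algebraMap R M c = y) (γ : M ≃ₐ[R] M) (z : M) :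
    ∃ h ∈ H, h z = γ z := by
  classical
  have hint : IsIntegral R z := (Algebra.IsAlgebraic.isAlgebraic z).isIntegral
  obtain ⟨S, hS⟩ : ∃ S : Finset M, ∀ w, w ∈ S ↔ ∃ h ∈ H, h z = w := by
    refine ⟨((minpoly R z).aroots M).toFinset.filter fun w => ∃ h ∈ H, h z = w, fun w => ?_⟩
    rw [Finset.mem_filter, Multiset.mem_toFinset]
    refine ⟨fun h => h.2, fun h => ⟨?_, h⟩⟩
    obtain ⟨h, hh, rfl⟩ := h
    rw [mem_aroots]
    refine ⟨minpoly.ne_zero hint, ?_⟩
    rw [aeval_algHom_apply, minpoly.aeval, map_zero]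
  obtain ⟨P, hP⟩ : ∃ P : M[X], P = ∏ w ∈ S, (X - C w) := ⟨_, rfl⟩
  have hfix : ∀ h ∈ H, P.map (h : M →+* M) = P := by
    intro h hh
    rw [hP, Polynomial.map_prod]
    refine Finset.prod_bij (fun w _ => h w) ?_ ?_ ?_ ?_
    · intro w hw
      obtain ⟨h', hh', rfl⟩ := (hS w).1 hw
      exact (hS _).2 ⟨h * h', mul_mem hh hh', rfl⟩
    · intro a _ b _ hab
      exact h.injective hab
    · intro w hw
      obtain ⟨h', hh', rfl⟩ := (hS w).1 hw
      refine ⟨h⁻¹ (h' z), (hS _).2 ⟨h⁻¹ * h', mul_mem (inv_mem hh) hh', rfl⟩, ?_⟩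
      exact h.apply_symm_apply _
    · intro w _
      simp
  have hcoeff : ∀ n, ∃ c : R, algebraMap R M c = P.coeff n := by
    intro n
    refine hH _ fun h hh => ?_
    have h1 := congrArg (fun Q => Q.coeff n) (hfix h hh)
    simpa using h1
  obtain ⟨Q, hQ⟩ : ∃ Q : R[X], Q.map (algebraMap R M) = P := by
    rw [← Polynomial.mem_lifts, Polynomial.lifts_iff_coeff_lifts]
    intro n
    exact hcoeff n
  have hz : aeval z Q = 0 := by
    rw [aeval_def, ← eval_map, hQ, hP, eval_prod]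
    refine Finset.prod_eq_zero ((hS z).2 ⟨1, one_mem _, rfl⟩) ?_
    simp
  have hγ : aeval (γ z) Q = 0 := by
    rw [aeval_algHom_apply, hz, map_zero]
  rw [aeval_def, ← eval_map, hQ, hP, eval_prod, Finset.prod_eq_zero_iff] at hγ
  obtain ⟨w, hw, h1⟩ := hγ
  rw [eval_sub, eval_X, eval_C, sub_eq_zero] at h1
  obtain ⟨h, hh, h2⟩ := (hS w).1 hw
  exact ⟨h, hh, by rw [h2, h1]⟩

end Pool.Agent.Zk12.HD
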