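import Mathlib
import Pool.Agent.Zk12.HT.End

/-!
# The restriction of a section to a normal extension
-/

set_option autoImplicit false
set_option linter.all false

open Polynomial

namespace Pool.Agent.Zk12.HD

open Pool.Agent.TH954

section

variable {k F Ω B E : Type} [Field k] [Field F] [Field Ω] [Field B] [Field E] [Algebra k F]
  [Algebra F Ω] [Algebra k Ω] [Algebra k B] [Algebra k E] [IsScalarTower k F Ω]
  [Algebra E B] [IsScalarTower k E B]

/-- the fixed field of the restriction -/
def Fx (s : GalSection k F Ω B) (E : Type) [Field E] [Algebra k E] [Algebra E B]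
    [IsScalarTower k E B] : IntermediateField F Ω where
  carrier := {y | ∀ g : B ≃ₐ[k] B, (∀ e : E, g (algebraMap E B e) = algebraMap E B e) → s.s g y = y}
  mul_mem' ha hb g hg := by rw [map_mul, ha g hg, hb g hg]
  add_mem' ha hb g hg := by rw [map_add, ha g hg, hb g hg]
  algebraMap_mem' c g _ := (s.s g).commutes c
  inv_mem' a ha g hg := by rw [map_inv₀, ha g hg]

theorem mem_Fx {s : GalSection k F Ω B} {y : Ω} : y ∈ Fx s E ↔ ∀ g : B ≃ₐ[k] B,
    (∀ e : E, g (algebraMap E B e) = algebraMap E B e) → s.s g y = y := Iff.rfl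

/-- the constants -/
def toFx (s : GalSection k F Ω B) (E : Type) [Field E] [Algebra k E] [Algebra E B]
    [IsScalarTower k E B] : E →+* Fx s E where
  toFun e := ⟨s.j (algebraMap E B e), fun g hg => by rw [s.sec, hg]⟩
  map_one' := by ext; simp
  map_mul' a b := by ext; simp
  map_zero' := by ext; simp
  map_add' a b := by ext; simp

/-- the homomorphism -/
noncomputable def resh (s : GalSection k F Ω B) (E : Type) [Field E] [Algebra k E] [Algebra E B]
    [IsScalarTower k E B] : (B ≃ₐ[E] B) →* (Ω ≃ₐ[Fx s E] Ω) where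
  toFun := fun g => AlgEquiv.ofRingEquiv (f := (s.s (g.restrictScalars k) : Ω ≃+* Ω))
    (fun z => z.2 (g.restrictScalars k) (fun e => g.commutes e))
  map_one' := by
    ext z
    change s.s ((1 : B ≃ₐ[E] B).restrictScalars k) z = z
    have : (1 : B ≃ₐ[E] B).restrictScalars k = 1 := rfl
    rw [this, map_one]
    rfl
  map_mul' := fun g h => by
    ext z
    change s.s ((g * h).restrictScalars k) z = s.s (g.restrictScalars k) (s.s (h.restrictScalars k) z)
    have : (g * h).restrictScalars k = g.restrictScalars k * h.restrictScalars k := rfl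
    rw [this, map_mul]
    rfl

theorem resh_apply (s : GalSection k F Ω B) (g : B ≃ₐ[E] B) (z : Ω) :
    resh s E g z = s.s (g.restrictScalars k) z := rfl

theorem rsc_cont [Algebra.IsAlgebraic k B] :
    Continuous (fun g : B ≃ₐ[E] B => (g.restrictScalars k : B ≃ₐ[k] B)) := by
  let f : (B ≃ₐ[E] B) →* (B ≃ₐ[k] B) :=
    { toFun := fun g => g.restrictScalars k
      map_one' := rfl
      map_mul' := fun _ _ => rfl }
  change Continuous f
  refine continuous_of_continuousAt_one _ ?_
  rw [ContinuousAt, map_one, Filter.tendsto_def]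
  intro V hV
  rw [krullTopology_mem_nhds_one_iff] at hV
  obtain ⟨K, hK, hKV⟩ := hV
  have hfg : K.FG := IntermediateField.essFiniteType_iff.1 inferInstance
  obtain ⟨T, hT⟩ := hfg
  have halg : Algebra.IsAlgebraic E B := Algebra.IsAlgebraic.tower_top (K := k) E
  rw [krullTopology_mem_nhds_one_iff]
  refine ⟨IntermediateField.adjoin E (T : Set B), ?_, ?_⟩
  · exact IntermediateField.finiteDimensional_adjoin fun z _ => (halg.isAlgebraic z).isIntegral
  · intro g hg
    apply hKV
    refine (IntermediateField.mem_fixingSubgroup_iff _ _).2 ?_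
    rw [← hT]
    intro z hz
    have h3 : IntermediateField.adjoin k (T : Set B) ≤
        (IntermediateField.adjoin E (T : Set B)).restrictScalars k := by
      rw [IntermediateField.adjoin_le_iff]
      intro y hy
      exact IntermediateField.subset_adjoin E _ hy
    exact (IntermediateField.mem_fixingSubgroup_iff _ _).1 hg z (h3 hz)

theorem resh_cont [Algebra.IsAlgebraic k B] [Algebra.IsAlgebraic F Ω] (s : GalSection k F Ω B) :
    Continuous (resh s E) := by
  have halg : Algebra.IsAlgebraic F Ω := inferInstance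
  have hch : Algebra.IsAlgebraic (Fx s E) Ω := Algebra.IsAlgebraic.tower_top (K := F) (Fx s E)
  refine continuous_of_continuousAt_one _ ?_
  rw [ContinuousAt, map_one, Filter.tendsto_def]
  intro V hV
  rw [krullTopology_mem_nhds_one_iff] at hV
  obtain ⟨K, hK, hEV⟩ := hV
  have hfg : K.FG := IntermediateField.essFiniteType_iff.1 inferInstance
  obtain ⟨T, hT⟩ := hfg
  have h1 : {f : Ω ≃ₐ[F] Ω | ∀ z ∈ T, f z = z} ∈ nhds (1 : Ω ≃ₐ[F] Ω) := by
    rw [krullTopology_mem_nhds_one_iff]
    refine ⟨IntermediateField.adjoin F (T : Set Ω), ?_, ?_⟩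
    · exact IntermediateField.finiteDimensional_adjoin fun z _ => (halg.isAlgebraic z).isIntegral
    · intro f hf z hz
      exact (IntermediateField.mem_fixingSubgroup_iff _ _).1 hf z (IntermediateField.subset_adjoin _ _ hz)
  have h2 := (s.cont.comp (rsc_cont (k := k) (E := E) (B := B))).tendsto 1
  have h20 : (s.s ∘ fun g : B ≃ₐ[E] B => (g.restrictScalars k : B ≃ₐ[k] B)) 1 = 1 := by
    change s.s ((1 : B ≃ₐ[E] B).restrictScalars k) = 1
    have : (1 : B ≃ₐ[E] B).restrictScalars k = 1 := rfl
    rw [this, map_one]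
  rw [h20] at h2
  refine Filter.mem_of_superset (h2 h1) ?_
  intro g hg
  apply hEV
  refine (IntermediateField.mem_fixingSubgroup_iff _ _).2 ?_
  rw [← hT]
  intro z hz
  have h3 : IntermediateField.adjoin (Fx s E) (T : Set Ω) ≤ IntermediateField.fixedField
      (Subgroup.zpowers (resh s E g)) := by
    rw [IntermediateField.adjoin_le_iff]
    intro y hy
    rw [SetLike.mem_coe, IntermediateField.mem_fixedField_iff]
    intro f hf
    have h4 : resh s E g y = y := hg y hy
    have h5 : resh s E g ∈ MulAction.stabilizer (Ω ≃ₐ[Fx s E] Ω) y := h4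
    exact (Subgroup.zpowers_le.2 h5) hf
  exact (IntermediateField.mem_fixedField_iff _ _).1 (h3 hz) _ (Subgroup.mem_zpowers _)

end

end Pool.Agent.Zk12.HD
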