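import Mathlib
import Pool.Agent.Zk12.HT.End

set_option autoImplicit false
set_option linter.all false

open Polynomial

namespace Pool.Agent.Zk12.HD

open Pool.Agent.TH954 Pool.Agent.Zk12.HT

theorem nonunits_comap' {R M : Type} [Field R] [Field M] (σ : R →+* M) (W : ValuationSubring M) (z : R) :
    z ∈ (W.comap σ).nonunits ↔ σ z ∈ W.nonunits := by
  rw [ValuationSubring.mem_nonunits_iff_or, ValuationSubring.mem_nonunits_iff_or,
    ValuationSubring.mem_comap, map_inv₀, _root_.map_eq_zero]

/-- the residue field of `W` is algebraic over that of `O` -/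
theorem resid {k F Ω B : Type} [Field k] [Field F] [Field Ω] [Field B] [Algebra k F]
    [Algebra F Ω] [Algebra k Ω] [Algebra k B] [IsScalarTower k F Ω] [Algebra.IsAlgebraic F Ω]
    [IsAlgClosed B] (j : B →ₐ[k] Ω) (W : ValuationSubring Ω)
    (hj : ∀ b, j b ∈ W)
    (hr : ∀ a ∈ W.comap (algebraMap F Ω), ∃ c : k, (W.comap (algebraMap F Ω)).valuation
      (a - algebraMap k F c) < 1) {a : Ω} (ha : a ∈ W) : ∃ b : B, a - j b ∈ W.nonunits := by
  classical
  obtain ⟨P, hP, hPa⟩ := Algebra.IsAlgebraic.isAlgebraic (R := F) a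
  obtain ⟨i0, hi0, hmax⟩ := P.support.exists_max_image
    (fun i => (W.comap (algebraMap F Ω)).valuation (P.coeff i)) (by
      rw [nonempty_support_iff]; exact hP)
  have hc0 : P.coeff i0 ≠ 0 := by rwa [mem_support_iff] at hi0
  have h1 : ∀ i ∈ P.support, P.coeff i / P.coeff i0 ∈ W.comap (algebraMap F Ω) := by
    intro i hi
    rw [← ValuationSubring.valuation_le_one_iff, map_div₀]
    exact div_le_one_of_le₀ (hmax i hi) zero_le
  choose! c hc using fun i (hi : i ∈ P.support) => hr _ (h1 i hi)
  have hc' : ∀ i ∈ P.support,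
      W.valuation (algebraMap F Ω (P.coeff i / P.coeff i0) - algebraMap k Ω (c i)) < 1 := by
    intro i hi
    have h2 := hc i hi
    rw [← ValuationSubring.mem_nonunits_iff, nonunits_comap', ValuationSubring.mem_nonunits_iff,
      map_sub, ← IsScalarTower.algebraMap_apply] at h2
    exact h2
  have hva : W.valuation a ≤ 1 := (W.valuation_le_one_iff a).2 ha
  obtain ⟨Q, hQ⟩ : ∃ Q : k[X], Q = ∑ i ∈ P.support, C (c i) * X ^ i := ⟨_, rfl⟩
  have hQ0 : Q ≠ 0 := by
    intro h
    have h3 : Q.coeff i0 = c i0 := by
      rw [hQ, finset_sum_coeff]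
      simp only [coeff_C_mul, coeff_X_pow]
      rw [Finset.sum_eq_single i0]
      · simp
      · intro b _ hb
        rw [if_neg (Ne.symm hb), mul_zero]
      · intro h4; exact absurd hi0 h4
    rw [h, coeff_zero] at h3
    have h4 := hc' i0 hi0
    rw [← h3, div_self hc0, map_one, map_zero, sub_zero, map_one] at h4
    exact lt_irrefl _ h4
  have hQa : W.valuation (aeval a Q) < 1 := by
    have h5 : aeval a Q = -∑ i ∈ P.support,
        (algebraMap F Ω (P.coeff i / P.coeff i0) - algebraMap k Ω (c i)) * a ^ i := by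
      have h6 : ∑ i ∈ P.support, algebraMap F Ω (P.coeff i / P.coeff i0) * a ^ i = 0 := by
        have h7 : ∑ i ∈ P.support, algebraMap F Ω (P.coeff i) * a ^ i = 0 := by
          rw [← hPa, aeval_def, eval₂_eq_sum, Polynomial.sum_def]
        have h8 : ∑ i ∈ P.support, algebraMap F Ω (P.coeff i / P.coeff i0) * a ^ i =
            (algebraMap F Ω (P.coeff i0))⁻¹ * ∑ i ∈ P.support, algebraMap F Ω (P.coeff i) * a ^ i := by
          rw [Finset.mul_sum]
          refine Finset.sum_congr rfl fun i _ => ?_
          rw [map_div₀]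
          ring
        rw [h8, h7, mul_zero]
      simp only [sub_mul, Finset.sum_sub_distrib]
      rw [h6, zero_sub, neg_neg, hQ, map_sum]
      refine Finset.sum_congr rfl fun i _ => ?_
      rw [map_mul, map_pow, aeval_C, aeval_X]
    rw [h5, Valuation.map_neg]
    refine Valuation.map_sum_lt _ one_ne_zero fun i hi => ?_
    rw [map_mul, map_pow]
    exact mul_lt_one_of_lt_of_le (hc' i hi) (pow_le_one₀ zero_le hva)
  by_contra hcon
  push_neg at hcon
  have hb : ∀ b : B, W.valuation (a - j b) = 1 := by
    intro b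
    refine le_antisymm ((W.valuation_le_one_iff _).2 (sub_mem ha (hj b))) ?_
    have h6 := hcon b
    rw [ValuationSubring.mem_nonunits_iff] at h6
    exact not_lt.1 h6
  have hsp : (Q.map (algebraMap k B)).Splits := IsAlgClosed.splits _
  have hfac := hsp.eq_prod_roots
  have h7 : aeval a Q = j (Q.map (algebraMap k B)).leadingCoeff *
      (((Q.map (algebraMap k B)).roots.map fun b => a - j b).prod) := by
    have h8 : aeval a Q = eval₂ (j : B →+* Ω) a (Q.map (algebraMap k B)) := by
      rw [eval₂_map, aeval_def]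
      congr 1
      exact (j.comp_algebraMap).symm
    rw [h8]
    conv_lhs => rw [hfac]
    rw [eval₂_mul, eval₂_C]
    congr 1
    have h9 : ∀ S : Multiset B, eval₂ (j : B →+* Ω) a ((S.map fun b => X - C b).prod) =
        (S.map fun b => a - j b).prod := by
      intro S
      induction S using Multiset.induction_on with
      | empty => simp
      | cons b S ih =>
        rw [Multiset.map_cons, Multiset.prod_cons, eval₂_mul, ih, Multiset.map_cons,
          Multiset.prod_cons, eval₂_sub, eval₂_X, eval₂_C]
        rfl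
    exact h9 _
  have h10 : ∀ S : Multiset B, W.valuation ((S.map fun b => a - j b).prod) = 1 := by
    intro S
    induction S using Multiset.induction_on with
    | empty => simp
    | cons b S ih =>
      rw [Multiset.map_cons, Multiset.prod_cons, map_mul, ih, hb, mul_one]
  have hl : (Q.map (algebraMap k B)).leadingCoeff ≠ 0 := by
    rw [Ne, leadingCoeff_eq_zero]
    exact (Polynomial.map_ne_zero_iff (algebraMap k B).injective).2 hQ0
  have h11 : W.valuation (j (Q.map (algebraMap k B)).leadingCoeff) = 1 := by
    refine le_antisymm ((W.valuation_le_one_iff _).2 (hj _)) ?_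
    have h12 := (W.valuation_le_one_iff _).2 (hj (Q.map (algebraMap k B)).leadingCoeff⁻¹)
    rw [map_inv₀, map_inv₀] at h12
    by_contra h13
    rw [not_le] at h13
    exact absurd h12 (not_le.2 ((one_lt_inv₀ (by
      rw [zero_lt_iff, Ne, _root_.map_eq_zero, _root_.map_eq_zero]; exact hl)).2 h13))
  rw [h7, map_mul, h10, h11, mul_one] at hQa
  exact lt_irrefl _ hQa

/-- an element of `B` whose image is in the maximal ideal is zero -/
theorem j_nonunit {B Ω : Type} [Field B] [Field Ω] (j : B →+* Ω) (W : ValuationSubring Ω)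
    (hj : ∀ b, j b ∈ W) {b : B} (hb : j b ∈ W.nonunits) : b = 0 := by
  by_contra h
  rcases (W.mem_nonunits_iff_or).1 hb with h1 | h1
  · exact h ((_root_.map_eq_zero _).1 h1)
  · rw [← map_inv₀] at h1
    exact h1 (hj _)

end Pool.Agent.Zk12.HD
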