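import Mathlib
import Pool.Agent.Zk12.HD.Stm
import Pool.Agent.Zk12.HT.End

/-!
# Project HD: statements of the parts of the tower
-/

set_option autoImplicit false
set_option linter.all false

open Polynomial

namespace Pool.Agent.Zk12.HD

open Pool.Agent.TH954 Pool.Agent.Zk12.FG Pool.Agent.Zk12.HT Pool.Agent.Zk12.GT

/-- `z` is fixed by the section and a square of a fixed element -/
def FSq {k F Ω B : Type} [Field k] [Field F] [Field Ω] [Field B] [Algebra k F] [Algebra F Ω]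
    [Algebra k Ω] [Algebra k B] [IsScalarTower k F Ω] [IsAlgClosure F Ω] [IsAlgClosure k B]
    (s : GalSection k F Ω B) (z : Ω) : Prop := ∃ w : Ω, (∀ g, s.s g w = w) ∧ z = w ^ 2

/-- **part PFIX** (`symw`, `polD`, `odd_noQuadratic`, `fixed_sq`; cf. `gt_of` in `Zk12.GT.Fin`) -/
def S_PFIX : Prop := ∀ (k₁ k F Ω B : Type) [Field k₁] [CharZero k₁] [Field k] [Field F] [Field Ω]
  [Field B] [Algebra k₁ k] [Algebra k F] [Algebra F Ω] [Algebra k Ω] [Algebra k B]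
  [IsScalarTower k F Ω] [IsAlgClosure F Ω] [IsAlgClosure k B] (t₀ : k), GT.Star k₁ →
  Transcendental k₁ t₀ → IntermediateField.adjoin k₁ {t₀} = ⊤ → ∀ D : k₁[X], Irreducible D →
  Odd D.natDegree → ∀ (s : GalSection k F Ω B) (X : Ω), (∀ g, s.s g X = X) →
  (∀ z : k, X ≠ algebraMap k Ω z) → ∀ (N : ℕ), Even N → ∀ e : Fin N → k₁, Function.Injective e →
  FSq s (algebraMap k Ω (aeval t₀ D) * ∏ i, (X - algebraMap k Ω (algebraMap k₁ k (e i)))) →
  ∃ i, ∀ l l', l ≠ i → l' ≠ i →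
    FSq s ((X - algebraMap k Ω (algebraMap k₁ k (e l))) *
      (X - algebraMap k Ω (algebraMap k₁ k (e l'))) *
      algebraMap k Ω (algebraMap k₁ k ((e i - e l) * (e i - e l'))))

/-- **part BASED** (from `S_PFIX`): the class of `1 / (x - e_i) - 1 / (e_l - e_i)` is the one of
`D(t₀) ∏_{m ≠ i} (e_i - e_m)` -/
def S_BASED : Prop := ∀ (k₁ k F Ω B : Type) [Field k₁] [CharZero k₁] [Field k] [Field F] [Field Ω]
  [Field B] [Algebra k₁ k] [Algebra k F] [Algebra F Ω] [Algebra k Ω] [Algebra k B]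
  [IsScalarTower k F Ω] [IsAlgClosure F Ω] [IsAlgClosure k B] (t₀ : k), GT.Star k₁ →
  Transcendental k₁ t₀ → IntermediateField.adjoin k₁ {t₀} = ⊤ → ∀ D : k₁[X], Irreducible D →
  Odd D.natDegree → ∀ (s : GalSection k F Ω B) (X : Ω), (∀ g, s.s g X = X) →
  (∀ z : k, X ≠ algebraMap k Ω z) → ∀ (N : ℕ), Even N → ∀ e : Fin N → k₁, Function.Injective e →
  FSq s (algebraMap k Ω (aeval t₀ D) * ∏ i, (X - algebraMap k Ω (algebraMap k₁ k (e i)))) →
  ∃ (i : Fin N) (κ : k₁), κ ≠ 0 ∧ ∀ l, l ≠ i →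
    FSq s (((X - algebraMap k Ω (algebraMap k₁ k (e i)))⁻¹ -
      algebraMap k Ω (algebraMap k₁ k (e l - e i)⁻¹)) *
      (algebraMap k Ω (aeval t₀ (C κ * D)))⁻¹)

/-- **part FOURD** (from `S_PFIX` with `1 / (X - β₀)`, the four points `0`, `1 / (a - β₀)` etc., and the
polynomial `- (a - β₀) (b - β₀) (c - β₀) D`, where `β₀ ∈ k₁` is not `a`, `b`, `c`) -/
def S_FOURD : Prop := ∀ (k₁ k F Ω B : Type) [Field k₁] [CharZero k₁] [Field k] [Field F] [Field Ω]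
  [Field B] [Algebra k₁ k] [Algebra k F] [Algebra F Ω] [Algebra k Ω] [Algebra k B]
  [IsScalarTower k F Ω] [IsAlgClosure F Ω] [IsAlgClosure k B] (t₀ : k), GT.Star k₁ →
  Transcendental k₁ t₀ → IntermediateField.adjoin k₁ {t₀} = ⊤ → ∀ D : k₁[X], Irreducible D →
  Odd D.natDegree → ∀ (s : GalSection k F Ω B) (X : Ω), (∀ g, s.s g X = X) →
  (∀ z : k, X ≠ algebraMap k Ω z) → ∀ a b c : k₁, a ≠ b → b ≠ c → a ≠ c →
  ∀ a' b' c' : Ω, a' = algebraMap k Ω (algebraMap k₁ k a) → b' = algebraMap k Ω (algebraMap k₁ k b) →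
  c' = algebraMap k Ω (algebraMap k₁ k c) →
  FSq s (algebraMap k Ω (aeval t₀ D) * ((X - a') * (X - b') * (X - c'))) →
  (FSq s ((X - a') * (X - b')) ∧ FSq s ((X - b') * (X - c'))) ∨
  (FSq s ((X - b') * (a' - b')) ∧ FSq s ((X - c') * (a' - c'))) ∨
  (FSq s ((X - a') * (b' - a')) ∧ FSq s ((X - c') * (b' - c'))) ∨
  (FSq s ((X - a') * (c' - a')) ∧ FSq s ((X - b') * (c' - b')))

/-- **the tower** (from `S_BASED`, `S_FOURD`) -/
def S_TOWD : Prop := ∀ (k₁ k F Ω B : Type) [Field k₁] [CharZero k₁] [Field k] [Field F] [Field Ω]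
  [Field B] [Algebra k₁ k] [Algebra k F] [Algebra F Ω] [Algebra k Ω] [Algebra k B]
  [IsScalarTower k F Ω] [IsAlgClosure F Ω] [IsAlgClosure k B] (t₀ : k), GT.Star k₁ →
  Transcendental k₁ t₀ → IntermediateField.adjoin k₁ {t₀} = ⊤ → ∀ D : k₁[X], Irreducible D →
  Odd D.natDegree → ∀ (N : ℕ), Even N → 4 ≤ N → ∀ e : Fin N → k₁, Function.Injective e →
  ∀ x y : F, Transcendental k x →
  algebraMap k F (aeval t₀ D) * y ^ 2 = ∏ i, (x - algebraMap k F (algebraMap k₁ k (e i))) →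
  ∀ s : GalSection k F Ω B, ∃ (i : Fin N) (κ a b c : k₁) (rD : B) (X α β γ : ℕ → Ω), κ ≠ 0 ∧
    a ≠ b ∧ b ≠ c ∧ a ≠ c ∧ rD ^ 2 = algebraMap k B (aeval t₀ (C κ * D)) ∧
    X 0 = algebraMap F Ω (x - algebraMap k F (algebraMap k₁ k (e i)))⁻¹ ∧
    Halves (algebraMap k Ω (algebraMap k₁ k a)) (algebraMap k Ω (algebraMap k₁ k b))
      (algebraMap k Ω (algebraMap k₁ k c)) X α β γ ∧
    ∀ g : B ≃ₐ[k] B, g rD = rD →
      ∀ j, s.s g (X j) = X j ∧ s.s g (α j) = α j ∧ s.s g (β j) = β j ∧ s.s g (γ j) = γ j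

/-- **the theorem** -/
def S_HD : Prop := ∀ (k₁ k : Type) [Field k₁] [CharZero k₁], (⊤ : IntermediateField ℚ k₁).FG →
  ∀ [Field k] [Algebra k₁ k] (t : k), Transcendental k₁ t → IntermediateField.adjoin k₁ {t} = ⊤ →
  ∀ D : k₁[X], Irreducible D → Odd D.natDegree → ∀ (N : ℕ), Even N → 4 ≤ N →
  ∀ e : Fin N → k₁, Function.Injective e →
    BSC (∏ i, (X - C (algebraMap k₁ k (e i)))) (aeval t D)

end Pool.Agent.Zk12.HD
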