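import Mathlib
import Pool.Agent.Zk12.HD.Stm3
import Pool.Agent.Zk12.HT.End2

/-!
# Project HD: statements, the end
-/

set_option autoImplicit false
set_option linter.all false

open Polynomial

namespace Pool.Agent.Zk12.HD

open Pool.Agent.TH954 Pool.Agent.Zk12.FG Pool.Agent.Zk12.HT Pool.Agent.Zk12.GT

/-- the form in which the theorem is proved -/
def S_HDC : Prop := ∀ (k₁ k : Type) [Field k₁] [CharZero k₁], (⊤ : IntermediateField ℚ k₁).FG →
  ∀ [Field k] [Algebra k₁ k] (t : k), Transcendental k₁ t → IntermediateField.adjoin k₁ {t} = ⊤ →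
  ∀ D : k₁[X], Irreducible D → Odd D.natDegree → ∀ (N : ℕ), Even N → 4 ≤ N →
  ∀ e : Fin N → k₁, Function.Injective e →
    Core (∏ i, (X - C (algebraMap k₁ k (e i)))) (aeval t D)

/-- **part ALL** (from `S_HDC`): `f` any polynomial with different roots, all of them in `k₁`, of degree
at least 3: the leading coefficient goes into `D`, odd degree as in `bsc_all` (`g` there has the `N + 1` roots
`0` and `1 / (e_i - a)`, hence it splits) -/
def S_HDS : Prop := ∀ (k₁ k : Type) [Field k₁] [CharZero k₁], (⊤ : IntermediateField ℚ k₁).FG →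
  ∀ [Field k] [Algebra k₁ k] (t : k), Transcendental k₁ t → IntermediateField.adjoin k₁ {t} = ⊤ →
  ∀ D : k₁[X], Irreducible D → Odd D.natDegree → ∀ f : k₁[X], f.Separable → f.Splits →
  3 ≤ f.natDegree → BSC (f.map (algebraMap k₁ k)) (aeval t D)

end Pool.Agent.Zk12.HD
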