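import Mathlib
import Pool.Agent.Zk12.HD.Stm4

/-!
# Project HDX: descent, polynomials `f` which do not split
-/

set_option autoImplicit false
set_option linter.all false

open Polynomial

namespace Pool.Agent.Zk12.HD

open Pool.Agent.TH954 Pool.Agent.Zk12.FG Pool.Agent.Zk12.HT Pool.Agent.Zk12.GT

/-- **part DESC**: descent of the birational section conjecture along a normal algebraic extension.
Proof: `φ : E → B`, `F'` the fixed field in `Ω` of `s(g)`, `g ∈ H = Gal(B/φ E)`, `s' = s` on `H`, a section over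
`E`; the theorem over `E` for `F'` gives a unique `O'` and `W` above `O'` preserved by `s(H) = Gal(Ω/F')`, so
that `W` is the only valuation ring above `O'`.  For `g ∈ G_k` the ring `s(g) W` is preserved by `s(H)` as well
(`H` is normal), so `s(g) W ∩ F' = O'` by uniqueness, `s(g) W = W`, and `s` arises from `W ∩ F`; the residue field
of `W ∩ F` is `k` and the root `e` is in `k`, because they are fixed by `G_k` (nonzero constants are units
of `W`).  Uniqueness: if `s` arises from `O₁` by `W₁`, then `s'` arises from `W₁ ∩ F'`, hence `W₁ = W`. -/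
def S_DESC : Prop := ∀ (k E : Type) [Field k] [CharZero k] [Field E] [Algebra k E] [Normal k E]
  (f : k[X]) (d : k), BSC (f.map (algebraMap k E)) (algebraMap k E d) → BSC f d

/-- **part FLD**: fields. There are `K₁ ⊇ k₁` and `E ⊇ k`, `E = K₁(t)`, such that `f` splits over `K₁` (for example
`E` and `K₁` generated by the roots of `f` in `AlgebraicClosure k`) -/
def S_FLD : Prop := ∀ (k₁ k : Type) [Field k₁] [CharZero k₁], (⊤ : IntermediateField ℚ k₁).FG →
  ∀ [Field k] [Algebra k₁ k] (t : k), Transcendental k₁ t → IntermediateField.adjoin k₁ {t} = ⊤ →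
  ∀ f D : k₁[X], f ≠ 0 → Irreducible (D.map (algebraMap k₁ f.SplittingField)) →
  ∃ (K₁ E : Type) (_ : Field K₁) (_ : CharZero K₁) (_ : Field E) (_ : Algebra k E) (_ : Algebra K₁ E)
    (_ : Algebra k₁ K₁) (_ : Algebra k₁ E) (_ : IsScalarTower k₁ K₁ E) (_ : IsScalarTower k₁ k E),
    Normal k E ∧ (⊤ : IntermediateField ℚ K₁).FG ∧ Transcendental K₁ (algebraMap k E t) ∧
    IntermediateField.adjoin K₁ {algebraMap k E t} = ⊤ ∧ (f.map (algebraMap k₁ K₁)).Splits ∧
    Irreducible (D.map (algebraMap k₁ K₁))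

/-- **the theorem** -/
def S_HDX : Prop := ∀ (k₁ k : Type) [Field k₁] [CharZero k₁], (⊤ : IntermediateField ℚ k₁).FG →
  ∀ [Field k] [Algebra k₁ k] (t : k), Transcendental k₁ t → IntermediateField.adjoin k₁ {t} = ⊤ →
  ∀ f D : k₁[X], f.Separable → 3 ≤ f.natDegree → Odd D.natDegree →
  Irreducible (D.map (algebraMap k₁ f.SplittingField)) → BSC (f.map (algebraMap k₁ k)) (aeval t D)

/-- the assembly -/
theorem hdx_of (hHDS : S_HDS) (hDESC : S_DESC) (hFLD : S_FLD) : S_HDX := by
  intro k₁ k _ _ hfg _ _ t ht hgen f D hf h3 hodd hD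
  haveI : CharZero k := charZero_of_injective_algebraMap (algebraMap k₁ k).injective
  have hf0 : f ≠ 0 := by
    rintro rfl
    rw [natDegree_zero] at h3
    omega
  obtain ⟨K₁, E, _, _, _, _, _, _, _, _, _, hN, hfg', ht', hgen', hs, hD'⟩ :=
    hFLD k₁ k hfg t ht hgen f D hf0 hD
  haveI := hN
  refine hDESC k E (f.map (algebraMap k₁ k)) (aeval t D) ?_
  have h1 := hHDS K₁ E hfg' (algebraMap k E t) ht' hgen' (D.map (algebraMap k₁ K₁)) hD'
    (by rw [natDegree_map]; exact hodd) (f.map (algebraMap k₁ K₁)) hf.map hs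
    (by rw [natDegree_map]; exact h3)
  rw [Polynomial.map_map, ← IsScalarTower.algebraMap_eq k₁ K₁ E, aeval_map_algebraMap,
    aeval_algebraMap_apply] at h1
  rw [Polynomial.map_map, ← IsScalarTower.algebraMap_eq k₁ k E]
  exact h1

end Pool.Agent.Zk12.HD
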