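import Mathlib
import Pool.Agent.Zk12.HD.Stm5
import Pool.Agent.Zk12.HD.Res
import Pool.Agent.Zk12.HD.Dense
import Pool.Agent.Zk12.HD.Rsd
import Pool.Agent.Y536.PS.CONJ

/-!
# Project HDX: descent along a normal extension
-/

set_option autoImplicit false
set_option linter.all false

open Polynomial

namespace Pool.Agent.Zk12.HD

open Pool.Agent.TH954 Pool.Agent.Zk12.HT

/-- algebraic elements and homomorphisms -/
theorem isAlg_map {R S A B : Type} [Field R] [Field S] [Field A] [Field B] [Algebra R A]
    [Algebra S B] (θ : R →+* S) (η : A →+* B)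
    (h : ∀ r, η (algebraMap R A r) = algebraMap S B (θ r)) {a : A} (ha : IsAlgebraic R a) :
    IsAlgebraic S (η a) := by
  obtain ⟨p, hp, hpa⟩ := ha
  refine ⟨p.map θ, (Polynomial.map_ne_zero_iff θ.injective).2 hp, ?_⟩
  have h1 : (algebraMap S B).comp θ = η.comp (algebraMap R A) := RingHom.ext fun r => (h r).symm
  rw [aeval_def, eval₂_map, h1, ← hom_eval₂, ← aeval_def, hpa, map_zero]

/-- a valuation ring containing a subfield contains the elements which are algebraic over it -/
theorem mem_of_alg {R M : Type} [Field R] [Field M] [Algebra R M] (W : ValuationSubring M)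
    (h : ∀ c : R, algebraMap R M c ∈ W) {z : M} (hz : IsAlgebraic R z) : z ∈ W := by
  have h1 : IsIntegral R z := hz.isIntegral
  have h2 : IsIntegral W z := by
    obtain ⟨p, hp, hpx⟩ := h1
    refine ⟨p.map (⟨⟨⟨fun c => (⟨algebraMap R M c, h c⟩ : W), Subtype.ext (map_one _)⟩,
      fun a b => Subtype.ext (map_mul _ _ _)⟩, Subtype.ext (map_zero _),
      fun a b => Subtype.ext (map_add _ _ _)⟩ : R →+* W), hp.map _, ?_⟩
    rw [Polynomial.eval₂_map]
    exact hpx
  obtain ⟨y, hy⟩ := IsIntegrallyClosed.isIntegral_iff.1 h2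
  rw [← hy]
  exact y.2

section

variable {k F Ω B E : Type} [Field k] [CharZero k] [Field F] [Field Ω] [Field B] [Field E]
  [Algebra k F] [Algebra F Ω] [Algebra k Ω] [Algebra k B] [Algebra k E] [IsScalarTower k F Ω]
  [IsAlgClosure F Ω] [IsAlgClosure k B] [Normal k E] [Algebra E B] [IsScalarTower k E B]

/-- automorphisms map `E` to itself -/
theorem norm1 (g : B ≃ₐ[k] B) (e : E) : ∃ e' : E, g (algebraMap E B e) = algebraMap E B e' :=
  ⟨g.restrictNormal E e, (g.restrictNormal_commutes E e).symm⟩

/-- `s(g)` maps the fixed field to itself -/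
theorem norm2 (s : GalSection k F Ω B) (g : B ≃ₐ[k] B) {y : Ω} (hy : y ∈ Fx s E) :
    s.s g y ∈ Fx s E := by
  intro h hh
  have h1 : s.s (g⁻¹ * h * g) y = y := by
    refine hy _ fun e => ?_
    obtain ⟨e', he'⟩ := norm1 (E := E) g e
    change g⁻¹ (h (g (algebraMap E B e))) = _
    rw [he', hh, ← he']
    exact g.symm_apply_apply _
  have h2 : h * g = g * (g⁻¹ * h * g) := by group
  have h3 : s.s h (s.s g y) = s.s (h * g) y := by rw [map_mul]; rfl
  rw [h3, h2, map_mul]
  change s.s g (s.s (g⁻¹ * h * g) y) = _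
  rw [h1]

/-- nonunits -/
theorem nonunits_comap {R M : Type} [Field R] [Field M] [Algebra R M] (W : ValuationSubring M) (z : R) :
    z ∈ (W.comap (algebraMap R M)).nonunits ↔ algebraMap R M z ∈ W.nonunits := by
  rw [ValuationSubring.mem_nonunits_iff_or, ValuationSubring.mem_nonunits_iff_or,
    ValuationSubring.mem_comap, map_inv₀, _root_.map_eq_zero]

theorem nonunits_iff_of {M : Type} [Field M] {W : ValuationSubring M} {σ : M →+* M}
    (h : ∀ z, σ z ∈ W ↔ z ∈ W) (z : M) : σ z ∈ W.nonunits ↔ z ∈ W.nonunits := by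
  rw [ValuationSubring.mem_nonunits_iff_or, ValuationSubring.mem_nonunits_iff_or, ← map_inv₀, h,
    _root_.map_eq_zero]

end

/-- **descent** -/
theorem desc : S_DESC := by
  intro k E _ _ _ _ _ f d hE
  intro F Ω B _ _ _ _ _ _ _ _ _ _ x y hx halg hxy s
  haveI : IsAlgClosed B := IsAlgClosure.isAlgClosed k
  haveI : Algebra.IsAlgebraic k B := IsAlgClosure.isAlgebraic
  haveI : IsAlgClosed Ω := IsAlgClosure.isAlgClosed F
  haveI : Algebra.IsAlgebraic F Ω := IsAlgClosure.isAlgebraic
  haveI : Algebra.IsAlgebraic k E := Normal.toIsAlgebraic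
  haveI : CharZero E := charZero_of_injective_algebraMap (algebraMap k E).injective
  haveI : CharZero F := charZero_of_injective_algebraMap (algebraMap k F).injective
  haveI : CharZero Ω := charZero_of_injective_algebraMap (algebraMap F Ω).injective
  letI : Algebra E B := (IsAlgClosed.lift : E →ₐ[k] B).toRingHom.toAlgebra
  haveI : IsScalarTower k E B :=
    IsScalarTower.of_algebraMap_eq fun c => ((IsAlgClosed.lift : E →ₐ[k] B).commutes c).symm
  haveI : IsAlgClosure E B := ⟨inferInstance, Algebra.IsAlgebraic.tower_top (K := k) E⟩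
  letI : Algebra E Ω := (s.j.toRingHom.comp (algebraMap E B)).toAlgebra
  letI : Algebra E (Fx s E) := (toFx s E).toAlgebra
  haveI : IsScalarTower E (Fx s E) Ω := IsScalarTower.of_algebraMap_eq fun e => rfl
  haveI : IsAlgClosure (Fx s E) Ω :=
    ⟨inferInstance, Algebra.IsAlgebraic.tower_top (K := F) (Fx s E)⟩
  haveI : IsScalarTower k E Ω := IsScalarTower.of_algebraMap_eq fun c => by
    change _ = s.j (algebraMap E B (algebraMap k E c))
    rw [← IsScalarTower.algebraMap_apply k E B, s.j.commutes]
  obtain ⟨s', hs's, hs'j⟩ : ∃ s' : GalSection E (Fx s E) Ω B, (∀ g z, s'.s g z = s.s (g.restrictScalars k) z) ∧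
      ∀ z, s'.j z = s.j z :=
    ⟨{ j := { s.j.toRingHom with commutes' := fun e => rfl }
       s := resh s E
       cont := resh_cont s
       sec := fun g z => s.sec (g.restrictScalars k) z }, fun _ _ => rfl, fun _ => rfl⟩
  -- the coordinates
  have hEΩ : ∀ e : E, algebraMap E Ω e = s.j (algebraMap E B e) := fun e => rfl
  have hEF : ∀ e : E, algebraMap (Fx s E) Ω (algebraMap E (Fx s E) e) = s.j (algebraMap E B e) :=
    fun e => rfl
  have hFF : ∀ z : F, algebraMap (Fx s E) Ω (algebraMap F (Fx s E) z) = algebraMap F Ω z :=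
    fun z => rfl
  have hkk : ∀ c : k, algebraMap F (Fx s E) (algebraMap k F c) =
      algebraMap E (Fx s E) (algebraMap k E c) := by
    intro c
    apply (algebraMap (Fx s E) Ω).injective
    rw [hFF, hEF, ← IsScalarTower.algebraMap_apply k E B, s.j.commutes,
      IsScalarTower.algebraMap_apply k F Ω]
  have hx' : Transcendental E (algebraMap F (Fx s E) x) := by
    intro h
    apply hx
    have h1 : IsAlgebraic E (algebraMap F Ω x) := by
      rw [← hFF]
      exact h.algebraMap
    have h2 : IsAlgebraic k (algebraMap F Ω x) := h1.restrictScalars k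
    exact (isAlgebraic_algebraMap_iff (algebraMap F Ω).injective).1 h2
  have halg' : Algebra.IsAlgebraic
      (IntermediateField.adjoin E {algebraMap F (Fx s E) x}) (Fx s E) := by
    set K := IntermediateField.adjoin E {algebraMap F (Fx s E) x} with hK
    have hmem : ∀ u ∈ IntermediateField.adjoin k {x}, algebraMap F (Fx s E) u ∈ K := by
      intro u hu
      induction hu using IntermediateField.adjoin_induction with
      | mem u hu =>
        rw [Set.mem_singleton_iff.1 hu]
        exact IntermediateField.mem_adjoin_simple_self E _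
      | algebraMap c =>
        rw [hkk]
        exact K.algebraMap_mem _
      | add a b _ _ ha hb => rw [map_add]; exact add_mem ha hb
      | inv a _ ha => rw [map_inv₀]; exact inv_mem ha
      | mul a b _ _ ha hb => rw [map_mul]; exact mul_mem ha hb
    let θ : IntermediateField.adjoin k {x} →+* K :=
      { toFun := fun u => ⟨algebraMap F (Fx s E) u, hmem _ u.2⟩
        map_one' := by ext; simp
        map_mul' := fun a b => by ext; simp
        map_zero' := by ext; simp
        map_add' := fun a b => by ext; simp }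
    have h1 : ∀ w : F, IsAlgebraic K (algebraMap F (Fx s E) w) := fun w =>
      isAlg_map θ (algebraMap F (Fx s E)) (fun _ => rfl) (halg.isAlgebraic w)
    refine ⟨fun z => ?_⟩
    let A := algebraicClosure K (Fx s E)
    let η : F →+* A :=
      { toFun := fun u => ⟨algebraMap F (Fx s E) u, mem_algebraicClosure_iff.2 (h1 u)⟩
        map_one' := by ext; simp
        map_mul' := fun a b => by ext; simp
        map_zero' := by ext; simp
        map_add' := fun a b => by ext; simp }
    have h2 : IsAlgebraic F z := by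
      have h3 : IsAlgebraic F (algebraMap (Fx s E) Ω z) := Algebra.IsAlgebraic.isAlgebraic _
      exact (isAlgebraic_algebraMap_iff (algebraMap (Fx s E) Ω).injective).1 h3
    have h3 : IsAlgebraic A z := isAlg_map η (RingHom.id _) (fun _ => rfl) h2
    exact h3.restrictScalars K
  have hxy' : algebraMap E (Fx s E) (algebraMap k E d) * (algebraMap F (Fx s E) y) ^ 2 =
      aeval (algebraMap F (Fx s E) x) (f.map (algebraMap k E)) := by
    rw [← hkk, ← map_pow, ← map_mul, hxy, aeval_def, aeval_def, eval₂_map, hom_eval₂]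
    congr 1
    exact RingHom.ext fun c => hkk c
  obtain ⟨O', hO', huniq, hpt⟩ := hE (Fx s E) Ω B _ _ hx' halg' hxy' s'
  obtain ⟨hOtop, hOc, hOr, W, hW, hWs⟩ := hO'
  haveI : Normal k B := IsAlgClosure.normal k B
  haveI : IsGalois k B := { }
  haveI : Normal E B := IsAlgClosure.normal E B
  haveI : IsGalois E B := { }
  haveI : Algebra.IsAlgebraic (Fx s E) Ω := IsAlgClosure.isAlgebraic
  haveI : Normal (Fx s E) Ω := IsAlgClosure.normal _ _
  have hjal : ∀ b : B, IsAlgebraic k (s.j b) := fun b => (Algebra.IsAlgebraic.isAlgebraic b).algHom s.j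
  have hjW : ∀ W₂ : ValuationSubring Ω, (∀ c : k, algebraMap k Ω c ∈ W₂) → ∀ b, s.j b ∈ W₂ :=
    fun W₂ h b => mem_of_alg W₂ h (hjal b)
  -- the action of the automorphisms over `E`
  have hlift : ∀ g : B ≃ₐ[k] B, (∀ e : E, g (algebraMap E B e) = algebraMap E B e) →
      ∃ g' : B ≃ₐ[E] B, g'.restrictScalars k = g := fun g hg =>
    ⟨AlgEquiv.ofRingEquiv (f := (g : B ≃+* B)) hg, by ext z; rfl⟩
  -- fixed elements
  have hfixE : ∀ W₂ : ValuationSubring Ω, (∀ c : k, algebraMap k Ω c ∈ W₂) →
      (∀ (h : B ≃ₐ[E] B) z, s'.s h z ∈ W₂ ↔ z ∈ W₂) → ∀ (a : Ω) (b : B),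
      (∀ h : B ≃ₐ[E] B, s'.s h a = a) → a - s.j b ∈ W₂.nonunits → ∃ e : E, algebraMap E B e = b := by
    intro W₂ hc hs a b ha hab
    have h1 : b ∈ (⊥ : IntermediateField E B) := by
      rw [InfiniteGalois.mem_bot_iff_fixed]
      intro h
      have h2 : s'.s h (a - s.j b) ∈ W₂.nonunits :=
        (nonunits_iff_of (σ := ((s'.s h : Ω ≃+* Ω) : Ω →+* Ω)) (fun z => hs h z) _).2 hab
      have h3 : s'.s h (a - s.j b) = a - s.j (h b) := by
        rw [map_sub, ha, hs's, s.sec]
        rfl
      rw [h3] at h2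
      have h4 : s.j (b - h b) ∈ W₂.nonunits := by
        rw [ValuationSubring.mem_nonunits_iff] at hab h2 ⊢
        have h5 : s.j (b - h b) = (a - s.j (h b)) - (a - s.j b) := by rw [map_sub]; ring
        rw [h5]
        exact lt_of_le_of_lt (Valuation.map_sub _ _ _) (max_lt h2 hab)
      have h6 := j_nonunit (s.j : B →+* Ω) W₂ (hjW W₂ hc) h4
      exact (sub_eq_zero.1 h6).symm
    exact IntermediateField.mem_bot.1 h1
  have hfixk : ∀ W₂ : ValuationSubring Ω, (∀ c : k, algebraMap k Ω c ∈ W₂) →
      (∀ (h : B ≃ₐ[k] B) z, s.s h z ∈ W₂ ↔ z ∈ W₂) → ∀ (a : Ω) (b : B),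
      (∀ h : B ≃ₐ[k] B, s.s h a = a) → a - s.j b ∈ W₂.nonunits → ∃ e : k, algebraMap k B e = b := by
    intro W₂ hc hs a b ha hab
    have h1 : b ∈ (⊥ : IntermediateField k B) := by
      rw [InfiniteGalois.mem_bot_iff_fixed]
      intro h
      have h2 : s.s h (a - s.j b) ∈ W₂.nonunits :=
        (nonunits_iff_of (σ := ((s.s h : Ω ≃+* Ω) : Ω →+* Ω)) (fun z => hs h z) _).2 hab
      have h3 : s.s h (a - s.j b) = a - s.j (h b) := by
        rw [map_sub, ha, s.sec]
      rw [h3] at h2
      have h4 : s.j (b - h b) ∈ W₂.nonunits := by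
        rw [ValuationSubring.mem_nonunits_iff] at hab h2 ⊢
        have h5 : s.j (b - h b) = (a - s.j (h b)) - (a - s.j b) := by rw [map_sub]; ring
        rw [h5]
        exact lt_of_le_of_lt (Valuation.map_sub _ _ _) (max_lt h2 hab)
      have h6 := j_nonunit (s.j : B →+* Ω) W₂ (hjW W₂ hc) h4
      exact (sub_eq_zero.1 h6).symm
    exact IntermediateField.mem_bot.1 h1
  have hFxs : ∀ (h : B ≃ₐ[E] B) (a : Fx s E), s'.s h (algebraMap (Fx s E) Ω a) = algebraMap (Fx s E) Ω a :=
    fun h a => (s'.s h).commutes a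
  -- uniqueness of `W`
  have key : ∀ W₂ : ValuationSubring Ω, W₂ ≠ ⊤ → (∀ c : k, algebraMap k Ω c ∈ W₂) →
      (∀ a ∈ W₂, ∃ b : B, a - s.j b ∈ W₂.nonunits) →
      (∀ (h : B ≃ₐ[E] B) z, s'.s h z ∈ W₂ ↔ z ∈ W₂) → W₂ = W := by
    intro W₂ htop hc hres hs
    have h1 : s'.ArisesFrom (W₂.comap (algebraMap (Fx s E) Ω)) := by
      refine ⟨?_, ?_, ?_, W₂, rfl, hs⟩
      · intro h
        apply htop
        rw [eq_top_iff]
        intro z _
        refine mem_of_alg (R := Fx s E) W₂ (fun c => ?_) (Algebra.IsAlgebraic.isAlgebraic z)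
        have h2 : c ∈ W₂.comap (algebraMap (Fx s E) Ω) := by
          rw [h]
          exact ValuationSubring.mem_top c
        exact h2
      · intro e
        rw [ValuationSubring.mem_comap, hEF]
        exact hjW W₂ hc _
      · intro a ha
        obtain ⟨b, hb⟩ := hres _ ha
        obtain ⟨e, he⟩ := hfixE W₂ hc hs _ b (fun h => hFxs h a) hb
        refine ⟨e, ?_⟩
        rw [← ValuationSubring.mem_nonunits_iff, nonunits_comap, map_sub, hEF, he]
        exact hb
    have h2 := huniq _ h1
    obtain ⟨γ, hγ⟩ := Pool.Agent.Y536.PS.conj (Fx s E) Ω W W₂ (by rw [hW, h2])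
    ext z
    rw [hγ]
    obtain ⟨h, ⟨g, rfl⟩, h3⟩ := dense s'.s.range (fun y hy => by
      refine ⟨⟨y, ?_⟩, rfl⟩
      rw [mem_Fx]
      intro g hg
      obtain ⟨g', rfl⟩ := hlift g hg
      rw [← hs's]
      exact hy _ ⟨g', rfl⟩) γ z
    rw [← h3]
    exact hWs g z
  have hWtop : W ≠ ⊤ := by
    rintro rfl
    apply hOtop
    rw [← hW, eq_top_iff]
    intro z _
    rw [ValuationSubring.mem_comap]
    exact ValuationSubring.mem_top _
  have hWc : ∀ c : k, algebraMap k Ω c ∈ W := by
    intro c
    have h1 := hOc (algebraMap k E c)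
    rw [← hW, ValuationSubring.mem_comap, hEF, ← IsScalarTower.algebraMap_apply k E B,
      s.j.commutes] at h1
    exact h1
  have hWres : ∀ a ∈ W, ∃ b : B, a - s.j b ∈ W.nonunits := by
    intro a ha
    obtain ⟨b, hb⟩ := resid (k := E) (F := Fx s E) s'.j W (fun b => by rw [hs'j]; exact hjW W hWc b)
      (by rw [hW]; exact hOr) ha
    exact ⟨b, by rw [← hs'j]; exact hb⟩
  -- `W` is preserved by the whole group
  have hall : ∀ (g : B ≃ₐ[k] B) (z : Ω), s.s g z ∈ W ↔ z ∈ W := by
    intro g z
    obtain ⟨σ, hσ⟩ : ∃ σ : Ω →+* Ω, ∀ z, σ z = s.s g z := ⟨((s.s g : Ω ≃+* Ω) : Ω →+* Ω), fun _ => rfl⟩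
    have h1 : W.comap σ = W := by
      refine key _ ?_ ?_ ?_ ?_
      · intro h
        apply hWtop
        rw [eq_top_iff]
        intro w _
        have h2 : (s.s g).symm w ∈ W.comap σ := by
          rw [h]
          exact ValuationSubring.mem_top _
        rw [ValuationSubring.mem_comap, hσ, AlgEquiv.apply_symm_apply] at h2
        exact h2
      · intro c
        rw [ValuationSubring.mem_comap, hσ, IsScalarTower.algebraMap_apply k F Ω, (s.s g).commutes,
          ← IsScalarTower.algebraMap_apply k F Ω]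
        exact hWc c
      · intro a ha
        rw [ValuationSubring.mem_comap, hσ] at ha
        obtain ⟨b, hb⟩ := hWres _ ha
        refine ⟨g.symm b, ?_⟩
        rw [nonunits_comap', hσ, map_sub, s.sec, AlgEquiv.apply_symm_apply]
        exact hb
      · intro h w
        rw [ValuationSubring.mem_comap, ValuationSubring.mem_comap, hσ, hσ, hs's]
        have h3 : s.s g (s.s (h.restrictScalars k) w) =
            s.s (g * h.restrictScalars k * g⁻¹) (s.s g w) := by
          have h4 : s.s (g * h.restrictScalars k * g⁻¹) (s.s g w) =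
              s.s (g * h.restrictScalars k * g⁻¹ * g) w := by rw [map_mul _ _ g]; rfl
          rw [h4, inv_mul_cancel_right, map_mul]
          rfl
        obtain ⟨g', hg'⟩ := hlift (g * h.restrictScalars k * g⁻¹) (fun e => by
          obtain ⟨e', he'⟩ := norm1 (E := E) g⁻¹ e
          change g (h.restrictScalars k (g⁻¹ (algebraMap E B e))) = _
          rw [he']
          have h5 : h.restrictScalars k (algebraMap E B e') = algebraMap E B e' := h.commutes e'
          rw [h5, ← he']
          exact g.apply_symm_apply _)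
        rw [h3, ← hg', ← hs's]
        exact hWs g' _
    conv_rhs => rw [← h1]
    rw [ValuationSubring.mem_comap, hσ]
  have hsF : ∀ (g : B ≃ₐ[k] B) (a : F), s.s g (algebraMap F Ω a) = algebraMap F Ω a :=
    fun g a => (s.s g).commutes a
  refine ⟨W.comap (algebraMap F Ω), ⟨?_, ?_, ?_, W, rfl, hall⟩, ?_, ?_⟩
  · intro h
    apply hWtop
    rw [eq_top_iff]
    intro z _
    refine mem_of_alg (R := F) W (fun c => ?_) (Algebra.IsAlgebraic.isAlgebraic z)
    have h2 : c ∈ W.comap (algebraMap F Ω) := by
      rw [h]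
      exact ValuationSubring.mem_top c
    exact h2
  · intro c
    rw [ValuationSubring.mem_comap, ← IsScalarTower.algebraMap_apply k F Ω]
    exact hWc c
  · intro a ha
    obtain ⟨b, hb⟩ := hWres _ ha
    obtain ⟨c, hc⟩ := hfixk W hWc hall _ b (fun h => hsF h a) hb
    refine ⟨c, ?_⟩
    rw [← ValuationSubring.mem_nonunits_iff, nonunits_comap, map_sub,
      ← IsScalarTower.algebraMap_apply k F Ω, ← s.j.commutes, hc]
    exact hb
  · rintro O₁ ⟨h1top, h1c, h1r, W₁, hW₁, hW₁s⟩
    have h1 : W₁ = W := by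
      have hc1 : ∀ c : k, algebraMap k Ω c ∈ W₁ := by
        intro c
        have h2 := h1c c
        rw [← hW₁, ValuationSubring.mem_comap, ← IsScalarTower.algebraMap_apply k F Ω] at h2
        exact h2
      refine key W₁ ?_ hc1 (fun a ha => resid (k := k) (F := F) s.j W₁ (hjW W₁ hc1)
        (by rw [hW₁]; exact h1r) ha) (fun h z => by rw [hs's]; exact hW₁s _ z)
      rintro rfl
      apply h1top
      rw [← hW₁, eq_top_iff]
      intro z _
      rw [ValuationSubring.mem_comap]
      exact ValuationSubring.mem_top _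
    rw [← hW₁, h1]
  · rcases hpt with ⟨e, he, hxe⟩ | ⟨hodd, hxi⟩
    · left
      rw [← hW, nonunits_comap, map_sub, hEF, hFF] at hxe
      obtain ⟨c, hc⟩ := hfixk W hWc hall _ _ (fun h => hsF h x) hxe
      have hce : algebraMap k E c = e := by
        apply (algebraMap E B).injective
        rw [← IsScalarTower.algebraMap_apply k E B]
        exact hc
      refine ⟨c, ?_, ?_⟩
      · apply (algebraMap k E).injective
        rw [map_zero, ← he, ← hce, eval_map, eval₂_hom]
      · rw [nonunits_comap, map_sub, ← IsScalarTower.algebraMap_apply k F Ω, ← s.j.commutes, hc]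
        exact hxe
    · right
      rw [natDegree_map] at hodd
      refine ⟨hodd, ?_⟩
      rw [← hW, nonunits_comap, map_inv₀, hFF] at hxi
      rw [nonunits_comap, map_inv₀]
      exact hxi

end Pool.Agent.Zk12.HD
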