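import Mathlib

/-!
# Project HD: halving on `d Y² = (X - a) (X - b) (X - c)`, algebra
-/

set_option autoImplicit false
set_option linter.all false

namespace Pool.Agent.Zk12.HD

section

variable {K : Type} [Field K]

/-- the point with first coordinate `X` is twice a point -/
def Half (d a b c X : K) : Prop := ∃ u v w : K, X - a = d * u ^ 2 ∧ X - b = d * v ^ 2 ∧ X - c = d * w ^ 2

/-- change of the sign of the first root -/
theorem flip {d X a b c α β γ : K} (hd : d ≠ 0) (ha : X - a = d * α ^ 2) (hb : X - b = d * β ^ 2)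
    (hc : X - c = d * γ ^ 2)
    (na : X + d * (α * β + β * γ + γ * α) - a ≠ 0)
    (nb : X + d * (α * β + β * γ + γ * α) - b ≠ 0)
    (nc : X + d * (α * β + β * γ + γ * α) - c ≠ 0)
    (h1 : IsSquare ((X + d * (α * β + β * γ + γ * α) - b) * (a - b)))
    (h2 : IsSquare ((X + d * (α * β + β * γ + γ * α) - c) * (a - c))) :
    Half d a b c (X + d * (-α * β + β * γ + γ * -α)) := by
  obtain ⟨r, hr⟩ := h1
  obtain ⟨t, ht⟩ := h2
  set X₁ := X + d * (α * β + β * γ + γ * α) with hX₁
  have e1 : X₁ - a = d * ((α + β) * (α + γ)) := by rw [hX₁]; linear_combination ha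
  have e2 : X₁ - b = d * ((β + α) * (β + γ)) := by rw [hX₁]; linear_combination hb
  have e3 : X₁ - c = d * ((γ + α) * (γ + β)) := by rw [hX₁]; linear_combination hc
  have f1 : X + d * (-α * β + β * γ + γ * -α) - a = d * ((α - β) * (α - γ)) := by
    linear_combination ha
  have f2 : X + d * (-α * β + β * γ + γ * -α) - b = d * ((β - α) * (β + γ)) := by
    linear_combination hb
  have f3 : X + d * (-α * β + β * γ + γ * -α) - c = d * ((γ - α) * (γ + β)) := by
    linear_combination hc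
  have ab : a - b = d * ((β - α) * (β + α)) := by linear_combination hb - ha
  have ac : a - c = d * ((γ - α) * (γ + α)) := by linear_combination hc - ha
  have n1 : α + β ≠ 0 := by
    intro h; apply na; rw [e1, h]; ring
  have n2 : α + γ ≠ 0 := by
    intro h; apply na; rw [e1, h]; ring
  have n3 : β + γ ≠ 0 := by
    intro h; apply nb; rw [e2, h]; ring
  have n1' : β + α ≠ 0 := by rwa [add_comm]
  have n2' : γ + α ≠ 0 := by rwa [add_comm]
  have n3' : γ + β ≠ 0 := by rwa [add_comm]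
  refine ⟨r * t / (d ^ 2 * ((α + β) * (β + γ) * (γ + α))), (β + γ) * r / (X₁ - b),
    (β + γ) * t / (X₁ - c), ?_, ?_, ?_⟩
  · rw [f1, div_pow, mul_pow, pow_two r, pow_two t, ← hr, ← ht, e2, e3, ab, ac]
    field_simp
    ring
  · rw [f2, div_pow, mul_pow, pow_two r, ← hr, ab, e2]
    field_simp
  · rw [f3, div_pow, mul_pow, pow_two t, ← ht, ac, e3]
    field_simp
    ring

/-- the classes of the first half -/
def Four (a b c X : K) : Prop :=
  (IsSquare ((X - a) * (X - b)) ∧ IsSquare ((X - b) * (X - c))) ∨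
  (IsSquare ((X - b) * (a - b)) ∧ IsSquare ((X - c) * (a - c))) ∨
  (IsSquare ((X - a) * (b - a)) ∧ IsSquare ((X - c) * (b - c))) ∨
  (IsSquare ((X - a) * (c - a)) ∧ IsSquare ((X - b) * (c - b)))

/-- **the halving step** -/
theorem step {d X a b c : K} (hd : d ≠ 0) (h : Half d a b c X)
    (hn : ∀ α β γ : K, X - a = d * α ^ 2 → X - b = d * β ^ 2 → X - c = d * γ ^ 2 →
      X + d * (α * β + β * γ + γ * α) - a ≠ 0 ∧ X + d * (α * β + β * γ + γ * α) - b ≠ 0 ∧
      X + d * (α * β + β * γ + γ * α) - c ≠ 0 ∧ Four a b c (X + d * (α * β + β * γ + γ * α))) :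
    ∃ α β γ : K, X - a = d * α ^ 2 ∧ X - b = d * β ^ 2 ∧ X - c = d * γ ^ 2 ∧
      Half d a b c (X + d * (α * β + β * γ + γ * α)) := by
  obtain ⟨α, β, γ, ha, hb, hc⟩ := h
  obtain ⟨na, nb, nc, h4⟩ := hn α β γ ha hb hc
  rcases h4 with ⟨h1, h2⟩ | ⟨h1, h2⟩ | ⟨h1, h2⟩ | ⟨h1, h2⟩
  · refine ⟨α, β, γ, ha, hb, hc, ?_⟩
    obtain ⟨r, hr⟩ := h1
    obtain ⟨t, ht⟩ := h2
    set X₁ := X + d * (α * β + β * γ + γ * α) with hX₁
    have e1 : X₁ - a = d * ((α + β) * (α + γ)) := by rw [hX₁]; linear_combination ha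
    have e2 : X₁ - b = d * ((β + α) * (β + γ)) := by rw [hX₁]; linear_combination hb
    have e3 : X₁ - c = d * ((γ + α) * (γ + β)) := by rw [hX₁]; linear_combination hc
    have hP : (X₁ - a) * (X₁ - b) * (X₁ - c) = d ^ 3 * ((α + β) * (β + γ) * (γ + α)) ^ 2 := by
      rw [e1, e2, e3]; ring
    have hr0 : r ≠ 0 := by
      rintro rfl
      rw [mul_zero] at hr
      exact mul_ne_zero na nb hr
    have ht0 : t ≠ 0 := by
      rintro rfl
      rw [mul_zero] at ht
      exact mul_ne_zero nb nc ht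
    set P := (α + β) * (β + γ) * (γ + α) with hPdef
    have k1 : X₁ - a = d * (d * P / t) ^ 2 := by
      have : (X₁ - a) * (t * t) = d ^ 3 * P ^ 2 := by rw [← ht, ← hP]; ring
      field_simp
      linear_combination this
    have k3 : X₁ - c = d * (d * P / r) ^ 2 := by
      have : (X₁ - c) * (r * r) = d ^ 3 * P ^ 2 := by rw [← hr, ← hP]; ring
      field_simp
      linear_combination this
    have hPt : d * P / t ≠ 0 := by
      intro h
      rw [h] at k1
      apply na
      rw [k1]; ring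
    have k2 : X₁ - b = d * (r * t / (d ^ 2 * P)) ^ 2 := by
      have hdP : d * P ≠ 0 := fun h => hPt (by rw [h, zero_div])
      have hP0 : P ≠ 0 := right_ne_zero_of_mul hdP
      have h5 : d ^ 3 * P ^ 2 * (X₁ - b) = r ^ 2 * t ^ 2 := by
        have h7 : (X₁ - a) * (t * t) = d ^ 3 * P ^ 2 := by rw [← ht, ← hP]; ring
        rw [← h7]
        linear_combination t ^ 2 * hr
      have h8 : X₁ - b = r ^ 2 * t ^ 2 / (d ^ 3 * P ^ 2) := by
        rw [eq_div_iff (mul_ne_zero (pow_ne_zero _ hd) (pow_ne_zero _ hP0)), ← h5]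
        ring
      rw [h8]
      clear_value P X₁
      field_simp
    exact ⟨_, _, _, k1, k2, k3⟩
  · refine ⟨-α, β, γ, by rw [ha]; ring, hb, hc, ?_⟩
    exact flip hd ha hb hc na nb nc h1 h2
  · refine ⟨α, -β, γ, ha, by rw [hb]; ring, hc, ?_⟩
    have hs : X + d * (α * β + β * γ + γ * α) = X + d * (β * α + α * γ + γ * β) := by ring
    rw [hs] at na nb nc h1 h2
    obtain ⟨u, v, w, hu, hv, hw⟩ := flip (a := b) (b := a) hd hb ha hc nb na nc h1 h2
    have e : X + d * (α * -β + -β * γ + γ * α) = X + d * (-β * α + α * γ + γ * -β) := by ring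
    rw [e]
    exact ⟨v, u, w, hv, hu, hw⟩
  · refine ⟨α, β, -γ, ha, hb, by rw [hc]; ring, ?_⟩
    have hs : X + d * (α * β + β * γ + γ * α) = X + d * (γ * α + α * β + β * γ) := by ring
    rw [hs] at na nb nc h1 h2
    obtain ⟨u, v, w, hu, hv, hw⟩ := flip (a := c) (b := a) (c := b) hd hc ha hb nc na nb h1 h2
    have e : X + d * (α * β + β * -γ + -γ * α) = X + d * (-γ * α + α * β + β * -γ) := by ring
    rw [e]
    exact ⟨v, w, u, hv, hw, hu⟩

/-- **the infinite sequence**, for a predicate `T` which is preserved -/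
theorem seq {d a b c : K} (hd : d ≠ 0) (T : K → Prop)
    (hT : ∀ X, T X → ∀ α β γ : K, X - a = d * α ^ 2 → X - b = d * β ^ 2 → X - c = d * γ ^ 2 →
      T (X + d * (α * β + β * γ + γ * α)))
    (h4 : ∀ X, T X → X - a ≠ 0 ∧ X - b ≠ 0 ∧ X - c ≠ 0)
    (h5 : ∀ X, T X → IsSquare (d * ((X - a) * (X - b) * (X - c))) → Four a b c X)
    (X₀ : K) (h0 : T X₀) (hh : Half d a b c X₀) :
    ∃ X α β γ : ℕ → K, X 0 = X₀ ∧ ∀ j, X j - a = d * α j ^ 2 ∧ X j - b = d * β j ^ 2 ∧
      X j - c = d * γ j ^ 2 ∧ X (j + 1) = X j + d * (α j * β j + β j * γ j + γ j * α j) := by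
  have key : ∀ q : {X : K // T X ∧ Half d a b c X}, ∃ α β γ : K, (q : K) - a = d * α ^ 2 ∧
      (q : K) - b = d * β ^ 2 ∧ (q : K) - c = d * γ ^ 2 ∧
      (T ((q : K) + d * (α * β + β * γ + γ * α)) ∧
        Half d a b c ((q : K) + d * (α * β + β * γ + γ * α))) := by
    rintro ⟨X, hX, hXh⟩
    obtain ⟨α, β, γ, h1, h2, h3, h6⟩ := step hd hXh (fun α β γ h1 h2 h3 => by
      have h7 := hT X hX α β γ h1 h2 h3
      obtain ⟨n1, n2, n3⟩ := h4 _ h7
      refine ⟨n1, n2, n3, h5 _ h7 ?_⟩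
      refine ⟨d ^ 2 * ((α + β) * (β + γ) * (γ + α)), ?_⟩
      have e1 : X + d * (α * β + β * γ + γ * α) - a = d * ((α + β) * (α + γ)) := by
        linear_combination h1
      have e2 : X + d * (α * β + β * γ + γ * α) - b = d * ((β + α) * (β + γ)) := by
        linear_combination h2
      have e3 : X + d * (α * β + β * γ + γ * α) - c = d * ((γ + α) * (γ + β)) := by
        linear_combination h3
      rw [e1, e2, e3]
      ring)
    exact ⟨α, β, γ, h1, h2, h3, hT X hX α β γ h1 h2 h3, h6⟩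
  choose A B C hA hB hC hN using key
  let nxt : {X : K // T X ∧ Half d a b c X} → {X : K // T X ∧ Half d a b c X} :=
    fun q => ⟨(q : K) + d * (A q * B q + B q * C q + C q * A q), hN q⟩
  let f : ℕ → {X : K // T X ∧ Half d a b c X} := fun j => nxt^[j] ⟨X₀, h0, hh⟩
  refine ⟨fun j => f j, fun j => A (f j), fun j => B (f j), fun j => C (f j), rfl, fun j =>
    ⟨hA _, hB _, hC _, ?_⟩⟩
  change ((f (j + 1) : {X : K // T X ∧ Half d a b c X}) : K) = _
  have : f (j + 1) = nxt (f j) := Function.iterate_succ_apply' nxt j _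
  rw [this]

end

end Pool.Agent.Zk12.HD
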