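import Mathlib
import Pool.Agent.Zk12.HD.Stm3
import Pool.Agent.Zk12.HD.Tow1
import Pool.Agent.Zk12.GT.Att

/-!
# Project HD: the tower
-/

set_option autoImplicit false
set_option linter.all false

open Polynomial

namespace Pool.Agent.Zk12.HD

open Pool.Agent.TH954 Pool.Agent.Zk12.FG Pool.Agent.Zk12.HT Pool.Agent.Zk12.GT

/-- transcendence goes up -/
theorem trans_up {k Ω : Type} [Field k] [CharZero k] [Field Ω] [Algebra k Ω] {d a b c : k}
    (hd : d ≠ 0) (hab : a ≠ b) (hac : a ≠ c) (hbc : b ≠ c) {X α β γ : Ω}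
    (hX : Transcendental k X) (h1 : X - algebraMap k Ω a = algebraMap k Ω d * α ^ 2)
    (h2 : X - algebraMap k Ω b = algebraMap k Ω d * β ^ 2)
    (h3 : X - algebraMap k Ω c = algebraMap k Ω d * γ ^ 2) :
    Transcendental k (X + algebraMap k Ω d * (α * β + β * γ + γ * α)) := by
  haveI : CharZero Ω := charZero_of_injective_algebraMap (algebraMap k Ω).injective
  intro h
  have hdΩ : algebraMap k Ω d ≠ 0 := (_root_.map_ne_zero _).2 hd
  have habΩ : algebraMap k Ω a - algebraMap k Ω b ≠ 0 := by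
    rw [← map_sub, _root_.map_ne_zero]; exact sub_ne_zero.2 hab
  have hacΩ : algebraMap k Ω a - algebraMap k Ω c ≠ 0 := by
    rw [← map_sub, _root_.map_ne_zero]; exact sub_ne_zero.2 hac
  have e1 : X + algebraMap k Ω d * (α * β + β * γ + γ * α) - algebraMap k Ω a =
      algebraMap k Ω d * ((α + β) * (α + γ)) := by linear_combination h1
  have e2 : X + algebraMap k Ω d * (α * β + β * γ + γ * α) - algebraMap k Ω b =
      algebraMap k Ω d * ((α + β) * (β + γ)) := by linear_combination h2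
  have e3 : X + algebraMap k Ω d * (α * β + β * γ + γ * α) - algebraMap k Ω c =
      algebraMap k Ω d * ((α + γ) * (β + γ)) := by linear_combination h3
  have ab : algebraMap k Ω a - algebraMap k Ω b = algebraMap k Ω d * ((β - α) * (α + β)) := by
    linear_combination h2 - h1
  have ac : algebraMap k Ω a - algebraMap k Ω c = algebraMap k Ω d * ((γ - α) * (α + γ)) := by
    linear_combination h3 - h1
  have n1 : α + β ≠ 0 := by
    intro h; apply habΩ; rw [ab, h]; ring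
  have n2 : α + γ ≠ 0 := by
    intro h; apply hacΩ; rw [ac, h]; ring
  have A : ∀ z : k, IsAlgebraic k (algebraMap k Ω z) := fun z => isAlgebraic_algebraMap z
  have u1 : IsAlgebraic k (algebraMap k Ω d * ((α + β) * (α + γ))) := e1 ▸ h.sub (A a)
  have u2 : IsAlgebraic k (algebraMap k Ω d * ((α + β) * (β + γ))) := e2 ▸ h.sub (A b)
  have u3 : IsAlgebraic k (algebraMap k Ω d * ((α + γ) * (β + γ))) := e3 ▸ h.sub (A c)
  have bc : algebraMap k Ω b - algebraMap k Ω c = algebraMap k Ω d * ((γ - β) * (β + γ)) := by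
    linear_combination h3 - h2
  have hbcΩ : algebraMap k Ω b - algebraMap k Ω c ≠ 0 := by
    rw [← map_sub, _root_.map_ne_zero]; exact sub_ne_zero.2 hbc
  have n3 : β + γ ≠ 0 := by
    intro h; apply hbcΩ; rw [bc, h]; ring
  have u4 : IsAlgebraic k ((α + β) ^ 2) := by
    have h4 : (α + β) ^ 2 = algebraMap k Ω d⁻¹ * ((algebraMap k Ω d * ((α + β) * (α + γ))) *
        (algebraMap k Ω d * ((α + β) * (β + γ))) * (algebraMap k Ω d * ((α + γ) * (β + γ)))⁻¹) := by
      rw [map_inv₀]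
      field_simp
    rw [h4]
    exact (A _).mul ((u1.mul u2).mul u3.inv)
  have u5 : IsAlgebraic k (α + β) := IsAlgebraic.of_pow two_pos u4
  have u6 : IsAlgebraic k (β - α) := by
    have h4 : β - α = algebraMap k Ω d⁻¹ * ((algebraMap k Ω a - algebraMap k Ω b) * (α + β)⁻¹) := by
      rw [ab, map_inv₀]
      field_simp
    rw [h4]
    exact (A _).mul (((A a).sub (A b)).mul u5.inv)
  have u7 : IsAlgebraic k α := by
    have h4 : α = algebraMap k Ω (2 : k)⁻¹ * ((α + β) - (β - α)) := by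
      rw [map_inv₀, map_ofNat]
      field_simp
      ring
    rw [h4]
    exact (A _).mul (u5.sub u6)
  apply hX
  have h4 : X = algebraMap k Ω a + algebraMap k Ω d * α ^ 2 := by rw [← h1]; ring
  rw [h4]
  exact (A a).add ((A d).mul (u7.pow 2))

section

variable {k F Ω B : Type} [Field k] [Field F] [Field Ω] [Field B] [Algebra k F] [Algebra F Ω]
    [Algebra k Ω] [Algebra k B] [IsScalarTower k F Ω] [IsAlgClosure F Ω] [IsAlgClosure k B]

theorem isSq_of {s : GalSection k F Ω B} (z : Lx s) (h : FSq s (z : Ω)) : IsSquare z := by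
  obtain ⟨w, hw, hz⟩ := h
  refine ⟨⟨w, hw⟩, Subtype.ext ?_⟩
  rw [hz, pow_two]
  rfl

theorem of_isSq {s : GalSection k F Ω B} (z : Lx s) (h : IsSquare z) : FSq s (z : Ω) := by
  obtain ⟨w, hw⟩ := h
  refine ⟨w, w.2, ?_⟩
  rw [hw, pow_two]
  rfl

/-- a constant in the fixed field -/
def cst (s : GalSection k F Ω B) (z : k) : Lx s := ⟨algebraMap k Ω z, fun g => by
  rw [IsScalarTower.algebraMap_apply k F Ω]; exact (s.s g).commutes _⟩

end

/-- **the tower** -/
theorem towD (hBASED : S_BASED) (hFOURD : S_FOURD) : S_TOWD := by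
  intro k₁ k F Ω B _ _ _ _ _ _ _ _ _ _ _ _ _ _ t₀ hS htr hgen D hD hodd N hN h4 e he x y hx hxy s
  haveI : CharZero k := charZero_of_injective_algebraMap (algebraMap k₁ k).injective
  haveI : IsAlgClosed B := IsAlgClosure.isAlgClosed k
  obtain ⟨x', hx'⟩ : ∃ x' : Ω, x' = algebraMap F Ω x := ⟨_, rfl⟩
  have hkΩ : ∀ z : k, algebraMap k Ω z = algebraMap F Ω (algebraMap k F z) := fun z =>
    IsScalarTower.algebraMap_apply k F Ω z
  have hxfix : ∀ g, s.s g x' = x' := fun g => by rw [hx']; exact (s.s g).commutes x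
  have hx'tr : Transcendental k x' := by
    rw [hx']
    exact (transcendental_algebraMap_iff (algebraMap F Ω).injective).2 hx
  have hxc : ∀ z : k, x' ≠ algebraMap k Ω z := fun z h => by
    apply hx'tr; rw [h]; exact isAlgebraic_algebraMap z
  have hsq : FSq s (algebraMap k Ω (aeval t₀ D) *
      ∏ i, (x' - algebraMap k Ω (algebraMap k₁ k (e i)))) := by
    refine ⟨algebraMap F Ω (algebraMap k F (aeval t₀ D) * y), fun g => (s.s g).commutes _, ?_⟩
    have h1 : (∏ i, (x' - algebraMap k Ω (algebraMap k₁ k (e i)))) =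
        algebraMap F Ω (∏ i, (x - algebraMap k F (algebraMap k₁ k (e i)))) := by
      rw [map_prod]
      refine Finset.prod_congr rfl fun i _ => ?_
      rw [map_sub, hx', hkΩ]
    rw [h1, ← hxy, hkΩ, ← map_mul, ← map_pow]
    congr 1
    ring
  obtain ⟨i, κ, hκ, hbase⟩ := hBASED k₁ k F Ω B t₀ hS htr hgen D hD hodd s x' hxfix hxc N hN e he hsq
  obtain ⟨l₁, l₂, l₃, h1, h2, h3, h12, h23, h13⟩ : ∃ l₁ l₂ l₃ : Fin N, l₁ ≠ i ∧ l₂ ≠ i ∧ l₃ ≠ i ∧
      l₁ ≠ l₂ ∧ l₂ ≠ l₃ ∧ l₁ ≠ l₃ := by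
    have hc : 2 < (Finset.univ.erase i).card := by
      rw [Finset.card_erase_of_mem (Finset.mem_univ i), Finset.card_univ, Fintype.card_fin]
      omega
    obtain ⟨p, q, r, hp, hq, hr, hpq, hpr, hqr⟩ := Finset.two_lt_card_iff.1 hc
    exact ⟨p, q, r, (Finset.mem_erase.1 hp).1, (Finset.mem_erase.1 hq).1, (Finset.mem_erase.1 hr).1,
      hpq, hqr, hpr⟩
  have hinj : ∀ l l', l ≠ i → l' ≠ i → l ≠ l' → (e l - e i)⁻¹ ≠ (e l' - e i)⁻¹ := by
    intro l l' hl hl' hll h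
    exact hll (he (sub_left_injective (inv_injective h)))
  obtain ⟨a, ha⟩ : ∃ a, a = (e l₁ - e i)⁻¹ := ⟨_, rfl⟩
  obtain ⟨b, hb⟩ : ∃ b, b = (e l₂ - e i)⁻¹ := ⟨_, rfl⟩
  obtain ⟨c, hc⟩ : ∃ c, c = (e l₃ - e i)⁻¹ := ⟨_, rfl⟩
  have hab : a ≠ b := by rw [ha, hb]; exact hinj _ _ h1 h2 h12
  have hbc : b ≠ c := by rw [hb, hc]; exact hinj _ _ h2 h3 h23
  have hac : a ≠ c := by rw [ha, hc]; exact hinj _ _ h1 h3 h13
  have hb1 := hbase l₁ h1
  have hb2 := hbase l₂ h2
  have hb3 := hbase l₃ h3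
  rw [← ha] at hb1
  rw [← hb] at hb2
  rw [← hc] at hb3
  obtain ⟨D', hD'⟩ : ∃ D', D' = C κ * D := ⟨_, rfl⟩
  rw [← hD'] at hb1 hb2 hb3
  have hD'irr : Irreducible D' := by
    rw [hD']
    exact (irreducible_isUnit_mul (isUnit_C.2 (isUnit_iff_ne_zero.2 hκ))).2 hD
  have hD'odd : Odd D'.natDegree := by rw [hD', natDegree_C_mul hκ]; exact hodd
  obtain ⟨d, hd⟩ : ∃ d, d = aeval t₀ D' := ⟨_, rfl⟩
  have hd0 : d ≠ 0 := by
    intro h
    apply htr
    exact ⟨D', hD'irr.ne_zero, by rw [← hd, h]⟩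
  rw [← hd] at hb1 hb2 hb3
  obtain ⟨ak, hak⟩ : ∃ ak, ak = algebraMap k₁ k a := ⟨_, rfl⟩
  obtain ⟨bk, hbk⟩ : ∃ bk, bk = algebraMap k₁ k b := ⟨_, rfl⟩
  obtain ⟨ck, hck⟩ : ∃ ck, ck = algebraMap k₁ k c := ⟨_, rfl⟩
  have habk : ak ≠ bk := by rw [hak, hbk]; exact fun h => hab ((algebraMap k₁ k).injective h)
  have hbck : bk ≠ ck := by rw [hbk, hck]; exact fun h => hbc ((algebraMap k₁ k).injective h)
  have hack : ak ≠ ck := by rw [hak, hck]; exact fun h => hac ((algebraMap k₁ k).injective h)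
  -- the first point
  have hfixk : ∀ (z : k) g, s.s g (algebraMap k Ω z) = algebraMap k Ω z := fun z g => by
    rw [hkΩ]; exact (s.s g).commutes _
  obtain ⟨X₀, hX₀⟩ : ∃ X₀ : Lx s, (X₀ : Ω) = (x' - algebraMap k Ω (algebraMap k₁ k (e i)))⁻¹ :=
    ⟨⟨(x' - algebraMap k Ω (algebraMap k₁ k (e i)))⁻¹, fun g => by
      rw [map_inv₀, map_sub, hxfix, hfixk]⟩, rfl⟩
  have hdΩ : algebraMap k Ω d ≠ 0 := (_root_.map_ne_zero _).2 hd0
  have hhalf0 : ∀ z : k₁, FSq s (((x' - algebraMap k Ω (algebraMap k₁ k (e i)))⁻¹ -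
      algebraMap k Ω (algebraMap k₁ k z)) * (algebraMap k Ω d)⁻¹) →
      ∃ w : Lx s, X₀ - cst s (algebraMap k₁ k z) = cst s d * w ^ 2 := by
    rintro z ⟨w, hw, h⟩
    refine ⟨⟨w, hw⟩, Subtype.ext ?_⟩
    change (X₀ : Ω) - algebraMap k Ω (algebraMap k₁ k z) = algebraMap k Ω d * w ^ 2
    rw [hX₀, ← h]
    field_simp
  have hH0 : Half (cst s d) (cst s ak) (cst s bk) (cst s ck) X₀ := by
    obtain ⟨u, hu⟩ := hhalf0 a hb1
    obtain ⟨v, hv⟩ := hhalf0 b hb2
    obtain ⟨w, hw⟩ := hhalf0 c hb3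
    exact ⟨u, v, w, by rw [hak]; exact hu, by rw [hbk]; exact hv, by rw [hck]; exact hw⟩
  have hcst0 : cst s d ≠ 0 := by
    intro h
    exact hdΩ (congrArg Subtype.val h)
  have hcoe : ∀ (X α β γ : Lx s), ((X + cst s d * (α * β + β * γ + γ * α) : Lx s) : Ω) =
      (X : Ω) + algebraMap k Ω d * ((α : Ω) * β + β * γ + γ * α) := fun _ _ _ _ => rfl
  have hcc : ∀ (X α : Lx s) (z : k), X - cst s z = cst s d * α ^ 2 →
      (X : Ω) - algebraMap k Ω z = algebraMap k Ω d * (α : Ω) ^ 2 := fun X α z h =>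
    congrArg Subtype.val h
  obtain ⟨X, α, β, γ, hX0, hseq⟩ := seq (d := cst s d) (a := cst s ak) (b := cst s bk)
    (c := cst s ck) hcst0 (fun X : Lx s => Transcendental k (X : Ω))
    (fun X hX α β γ e1 e2 e3 => by
      rw [hcoe]
      exact trans_up hd0 habk hack hbck hX (hcc _ _ _ e1) (hcc _ _ _ e2) (hcc _ _ _ e3))
    (fun X hX => by
      have hne : ∀ z : k, X - cst s z ≠ 0 := by
        intro z h
        apply hX
        have h' : (X : Ω) - algebraMap k Ω z = 0 := congrArg Subtype.val h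
        rw [sub_eq_zero.1 h']
        exact isAlgebraic_algebraMap z
      exact ⟨hne _, hne _, hne _⟩)
    (fun X hX hsqX => by
      have hXc : ∀ z : k, (X : Ω) ≠ algebraMap k Ω z := fun z h => by
        apply hX; rw [h]; exact isAlgebraic_algebraMap z
      have h5 := of_isSq _ hsqX
      have h6 := hFOURD k₁ k F Ω B t₀ hS htr hgen D' hD'irr hD'odd s (X : Ω) X.2 hXc a b c hab hbc hac
        (algebraMap k Ω ak) (algebraMap k Ω bk) (algebraMap k Ω ck) (by rw [hak]) (by rw [hbk])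
        (by rw [hck]) (by rw [← hd]; exact h5)
      rcases h6 with ⟨p, q⟩ | ⟨p, q⟩ | ⟨p, q⟩ | ⟨p, q⟩
      · exact Or.inl ⟨isSq_of _ p, isSq_of _ q⟩
      · exact Or.inr (Or.inl ⟨isSq_of ((X - cst s bk) * (cst s ak - cst s bk)) p,
          isSq_of ((X - cst s ck) * (cst s ak - cst s ck)) q⟩)
      · exact Or.inr (Or.inr (Or.inl ⟨isSq_of ((X - cst s ak) * (cst s bk - cst s ak)) p,
          isSq_of ((X - cst s ck) * (cst s bk - cst s ck)) q⟩))
      · exact Or.inr (Or.inr (Or.inr ⟨isSq_of ((X - cst s ak) * (cst s ck - cst s ak)) p,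
          isSq_of ((X - cst s bk) * (cst s ck - cst s bk)) q⟩)))
    X₀ (by
      change Transcendental k (X₀ : Ω)
      intro h
      rw [hX₀] at h
      apply hx'tr
      have h7 : x' = (x' - algebraMap k Ω (algebraMap k₁ k (e i)))⁻¹⁻¹ +
          algebraMap k Ω (algebraMap k₁ k (e i)) := by rw [inv_inv]; ring
      rw [h7]
      exact h.inv.add (isAlgebraic_algebraMap _)) hH0
  obtain ⟨rD, hrD⟩ := IsAlgClosed.exists_pow_nat_eq (algebraMap k B d) (n := 2) two_pos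
  have hrΩ : s.j rD ^ 2 = algebraMap k Ω d := by
    rw [← map_pow, hrD, s.j.commutes]
  refine ⟨i, κ, a, b, c, rD, fun j => (X j : Ω), fun j => s.j rD * (α j : Ω),
    fun j => s.j rD * (β j : Ω), fun j => s.j rD * (γ j : Ω), hκ, hab, hbc, hac, ?_, ?_, ?_, ?_⟩
  · rw [hrD, hd, hD']
  · change (X 0 : Ω) = _
    rw [hX0, hX₀, hx', hkΩ, map_inv₀, map_sub]
  · intro j
    obtain ⟨e1, e2, e3, e4⟩ := hseq j
    have f1 := hcc _ _ _ e1
    have f2 := hcc _ _ _ e2
    have f3 := hcc _ _ _ e3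
    have f4 : (X (j + 1) : Ω) = (X j : Ω) + algebraMap k Ω d * ((α j : Ω) * β j + β j * γ j + γ j * α j) := by
      rw [e4]; exact hcoe _ _ _ _
    rw [← hak, ← hbk, ← hck]
    refine ⟨?_, ?_, ?_, ?_⟩
    · change (s.j rD * (α j : Ω)) ^ 2 = _
      rw [mul_pow, hrΩ, f1]
    · change (s.j rD * (β j : Ω)) ^ 2 = _
      rw [mul_pow, hrΩ, f2]
    · change (s.j rD * (γ j : Ω)) ^ 2 = _
      rw [mul_pow, hrΩ, f3]
    · change (X (j + 1) : Ω) = (X j : Ω) + _ + _ + _
      rw [f4, ← hrΩ]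
      ring
  · intro g hg j
    have hm : ∀ z : Lx s, s.s g (s.j rD * (z : Ω)) = s.j rD * (z : Ω) := fun z => by
      rw [map_mul, s.sec, hg, z.2 g]
    exact ⟨(X j).2 g, hm _, hm _, hm _⟩

end Pool.Agent.Zk12.HD
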