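import Mathlib
import Pool.Agent.Zk12.HD.Stm

/-!
# Project HD: statements of the parts, continued
-/

set_option autoImplicit false
set_option linter.all false

open Polynomial IsDedekindDomain NumberField

namespace Pool.Agent.Zk12.HD

open Pool.Agent.TH954 Pool.Agent.Zk12.FG Pool.Agent.Zk12.HT

/-- **part FIND** (the assembly, from `S_EMBD`, `S_OBSF`, `S_POWF` and Koenigsmann's theorem) -/
def S_FIND : Prop := ∀ (k₁ k F Ω B : Type) [Field k₁] [CharZero k₁] [Field k] [Field F] [Field Ω]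
  [Field B] [Algebra k₁ k] [Algebra k F] [Algebra F Ω] [Algebra k Ω] [Algebra k B]
  [IsScalarTower k F Ω] [IsAlgClosure F Ω] [IsAlgClosure k B] (t₀ : k) (f D : k₁[X])
  (x y : F), (⊤ : IntermediateField ℚ k₁).FG → Transcendental k₁ t₀ →
  IntermediateField.adjoin k₁ {t₀} = ⊤ → Odd D.natDegree → f ≠ 0 → Even f.natDegree →
  Transcendental k x → Algebra.IsAlgebraic (IntermediateField.adjoin k {x}) F →
  algebraMap k F (aeval t₀ D) * y ^ 2 = aeval x (f.map (algebraMap k₁ k)) →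
  ∀ (s : GalSection k F Ω B) (e : k₁) (m₀ : ℕ),
  (∀ m m' : ℕ, m₀ ≤ m → m₀ ≤ m' → ∀ N : ℕ, 1 ≤ N → ∃ (h : k₁) (w : Ω), h ≠ 0 ∧
    (∀ g, s.s g w = w) ∧
    algebraMap F Ω ((x - algebraMap k F (algebraMap k₁ k (e + 2 ^ m))) /
      (x - algebraMap k F (algebraMap k₁ k (e + 2 ^ m')))) =
      algebraMap k Ω (algebraMap k₁ k h) * w ^ N) →
  ∃ O : ValuationSubring F, (aeval x (f.map (algebraMap k₁ k)))⁻¹ ∉ O ∧ s.ArisesFrom O ∧
    ∀ O' : ValuationSubring F, s.ArisesFrom O' → O' = O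

end Pool.Agent.Zk12.HD
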