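import Mathlib
import Pool.Agent.Zk12.HD.Stm4
import Pool.Agent.Zk12.HD.ConD2
import Pool.Agent.Zk12.HD.Tow2
import Pool.Agent.Zk12.HT.Main
import Pool.Agent.Zk47.HD.Quad
import Pool.Agent.Zk47.HD.SymW
import Pool.Agent.Zk95.HD.EmbD
import Pool.Agent.Zk95.HT.PowF
import Pool.Agent.Zk80.HT.ObsF
import Pool.Agent.Zk78.HD.FinD
import Pool.Agent.Zk26.HD.StarF

/-!
# Project HD: the theorem, from the tower
-/

set_option autoImplicit false
set_option linter.all false

open Polynomial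

namespace Pool.Agent.Zk12.HD

open Pool.Agent.TH954 Pool.Agent.Zk12.FG Pool.Agent.Zk12.HT Pool.Agent.Zk12.GT

theorem find : S_FIND :=
  Pool.Agent.Zk78.HD.finD Pool.Agent.Zk95.HD.embD Pool.Agent.Zk80.HT.obsF
    Pool.Agent.N890.KO.koenigsmann Pool.Agent.Zk95.HT.powF

/-- **the theorem, from the tower** -/
theorem hdc_of (hTOWD : S_TOWD) : S_HDC := by
  intro k₁ k _ _ hfg _ _ t htr hgen D hD hodd N hN h4 e he
  obtain ⟨f, hf⟩ : ∃ f : k₁[X], f = ∏ i, (X - C (e i)) := ⟨_, rfl⟩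
  have hmap : ∏ i, (X - C (algebraMap k₁ k (e i))) = f.map (algebraMap k₁ k) := by
    rw [hf, Polynomial.map_prod]
    simp
  have hdeg : f.natDegree = N := by
    rw [hf, natDegree_finset_prod_X_sub_C_eq_card, Finset.card_univ, Fintype.card_fin]
  have hf0 : f ≠ 0 := by
    rintro rfl
    rw [natDegree_zero] at hdeg
    omega
  rw [hmap]
  intro F Ω B _ _ _ _ _ _ _ _ _ _ x y hx halg hxy s
  haveI : CharZero k := charZero_of_injective_algebraMap (algebraMap k₁ k).injective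
  letI : Algebra k₁ B := ((algebraMap k B).comp (algebraMap k₁ k)).toAlgebra
  haveI : IsScalarTower k₁ k B := IsScalarTower.of_algebraMap_eq fun _ => rfl
  have hxy' : algebraMap k F (aeval t D) * y ^ 2 =
      ∏ i, (x - algebraMap k F (algebraMap k₁ k (e i))) := by
    rw [hxy, ← hmap, map_prod]
    simp
  obtain ⟨i, κ, a, b, c, rD, X, α, β, γ, hκ, hab, hbc, hac, hrD, hX0, hH, hfix⟩ :=
    hTOWD k₁ k F Ω B t (Pool.Agent.Zk26.HD.starF k₁ hfg) htr hgen D hD hodd N hN h4 e he x y hx hxy' s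
  have hj : ∀ z : k₁, s.j (algebraMap k₁ B z) = algebraMap k Ω (algebraMap k₁ k z) := fun z => by
    rw [IsScalarTower.algebraMap_apply k₁ k B, s.j.commutes]
  have hinj : ∀ z w : k₁, z ≠ w → algebraMap k₁ B z ≠ algebraMap k₁ B w := fun z w h h' =>
    h ((algebraMap k₁ B).injective h')
  classical
  obtain ⟨m₀, hm₀⟩ := conD Pool.Agent.Zk47.HD.quad ell Pool.Agent.Zk95.HT.koel
    Pool.Agent.Zk95.HT.eval Pool.Agent.Zk80.HT.kumm Pool.Agent.Zk81.HT.embF
    Pool.Agent.Zk78.HT.t_POWR Pool.Agent.Zk80.HT.norm Pool.Agent.Zk78.HT.t_DISC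
    k₁ k F Ω B t hfg htr hgen x hx s (C κ * D) (e i)
    {algebraMap k₁ B a, algebraMap k₁ B b, algebraMap k₁ B c} (algebraMap k₁ B a)
    (algebraMap k₁ B b) (algebraMap k₁ B c) rD X α β γ
    (by
      intro z hz
      simp only [Finset.mem_insert, Finset.mem_singleton] at hz
      rcases hz with rfl | rfl | rfl <;> exact isAlgebraic_algebraMap _)
    (by simp) (by simp) (by simp) (hinj _ _ hab) (hinj _ _ hbc) (hinj _ _ hac) hrD hX0
    (by rw [hj, hj, hj]; exact hH)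
    (fun g _ hg => hfix g hg)
  exact find k₁ k F Ω B t f D x y hfg htr hgen hodd hf0 (by rw [hdeg]; exact hN) hx halg hxy s (e i)
    m₀ hm₀

end Pool.Agent.Zk12.HD
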