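import Mathlib
import Pool.Agent.Zk12.HD.EndD
import Pool.Agent.Zk12.HD.Stm4
import Pool.Agent.Zk17.HD.BaseD
import Pool.Agent.Zk95.HD.FourD

/-!
# Project HD: the theorem, from the last open part
-/

set_option autoImplicit false
set_option linter.all false

open Polynomial

namespace Pool.Agent.Zk12.HD

theorem hdc_main (hPFIX : S_PFIX) : S_HDC :=
  hdc_of (towD (Pool.Agent.Zk17.HD.baseD hPFIX) (Pool.Agent.Zk95.HD.fourD hPFIX))

end Pool.Agent.Zk12.HD
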