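import Mathlib
import Pool.Agent.Zk12.HD.Final
import Pool.Agent.Zk26.HD.PFix
import Pool.Agent.Zk95.HD.AllD

/-!
# Project HD: the theorem
-/

set_option autoImplicit false
set_option linter.all false

open Polynomial

namespace Pool.Agent.Zk12.HD

theorem hdc : S_HDC := hdc_main (Pool.Agent.Zk26.HD.pfix Pool.Agent.Zk47.HD.symw)

theorem hds : S_HDS := Pool.Agent.Zk95.HD.allD hdc

end Pool.Agent.Zk12.HD
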