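import Mathlib
import Pool.Agent.Zk12.HD.Last
import Pool.Agent.Zk12.HD.Stm5
import Pool.Agent.Zk12.HD.Desc
import Pool.Agent.Zk26.HD.Fld

/-!
# Project HDX: the theorem
-/

set_option autoImplicit false
set_option linter.all false

namespace Pool.Agent.Zk12.HD

/-- **the theorem** -/
theorem hdx : S_HDX := hdx_of hds desc Pool.Agent.Zk26.HD.fld

end Pool.Agent.Zk12.HD
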