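import Mathlib
import Pool.Agent.Zk12.HT.End

/-!
# Sections which lift to the absolute Galois group
-/

set_option autoImplicit false
set_option linter.all false

open Polynomial

namespace Pool.Agent.Zk12.HD

open Pool.Agent.TH954 Pool.Agent.Zk12.HT

/-- the place of the lifted section gives the one of the section -/
theorem arises_of_lift {k F Ω M B : Type} [Field k] [Field F] [Field Ω] [Field M] [Field B]
    [Algebra k F] [Algebra F Ω] [Algebra k Ω] [Algebra F M] [Algebra k M] [Algebra k B]
    [IsScalarTower k F Ω] [IsScalarTower k F M] (ι : M →ₐ[F] Ω) (s : GalSection k F M B)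
    (s' : GalSection k F Ω B) (h : ∀ g z, ι (s.s g z) = s'.s g (ι z)) {O : ValuationSubring F}
    (hO : s'.ArisesFrom O) : s.ArisesFrom O := by
  obtain ⟨h1, h2, h3, W, hW, hfix⟩ := hO
  refine ⟨h1, h2, h3, W.comap (ι : M →+* Ω), ?_, ?_⟩
  · rw [← hW]
    ext z
    rw [ValuationSubring.mem_comap, ValuationSubring.mem_comap, ValuationSubring.mem_comap]
    have : (ι : M →+* Ω) (algebraMap F M z) = algebraMap F Ω z := ι.commutes z
    rw [this]
  · intro g z
    rw [ValuationSubring.mem_comap, ValuationSubring.mem_comap]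
    change ι (s.s g z) ∈ W ↔ ι z ∈ W
    rw [h]
    exact hfix g _

end Pool.Agent.Zk12.HD
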